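import Pool.Agent.R812.EV.Stm
import Pool.Agent.Results.MP_a627f3_an.AllConvexSets

/-!
# Ratios of principal eigenvalues of p-Laplacians on planar convex sets: assembly
-/

open MeasureTheory Set Metric Filter Topology
open scoped InnerProductSpace

namespace Pool.Agent.R812.EV

open Pool.Agent.TH281.PC (lam lamSet Jr)

theorem lib_scale : H_scale := fun _ _ v _ hc ho hn =>
  Pool.Agent.Results.MP_a627f3_an.AllConvexSets.lam_scale hc v ho hn

theorem lib_mono : H_mono := fun _ _ _ h ho hn =>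
  Pool.Agent.Results.MP_a627f3_an.AllConvexSets.lam_mono h ho hn

theorem lib_J : H_J := fun _ hr => Pool.Agent.TH281.PC.Jr_pos' hr

theorem lib_box : H_box := by
  intro q ε hq hε
  obtain ⟨L, hL, h⟩ := Pool.Agent.TH925.J54.box_upper (d := 1) hq hε
  refine ⟨L, hL, ?_⟩
  have e1 : Pool.Agent.TH925.J54.box 1 L = {x : E2 | 0 < x 0 ∧ x 0 < 1 ∧ |x 1| < L} := by
    ext x
    simp [Pool.Agent.TH925.J54.box]
  have e2 : lam q (Ioo (0 : ℝ) 1) = (2 * Jr q) ^ q := Pool.Agent.TH281.PC.lam_unit hq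
  rw [← e1, ← e2]
  exact h

theorem lib_pos : H_pos := by
  intro r Ω hr h
  obtain ⟨R, hR⟩ := h.2.1.subset_ball 0
  exact Pool.Agent.Results.MP_a627f3_an.AllConvexSets.lam_pos hr h.2.2.1 h.1 hR

/-- part (c) -/
theorem part_c (h1 : S_hp) (h2 : S_norm) (h3 : S_long) {p q : ℝ} (hq : 1 < q) (hqp : q < p)
    (hlt : ∀ Ω : Set E2, Adm Ω → rat p q Ω < Jr p / Jr q)
    (Ω : ℕ → Set E2) (hA : ∀ k, Adm (Ω k)) (hv : ∀ k, volume (Ω k) = 1)
    (hd : Tendsto (fun k => Metric.diam (Ω k)) atTop atTop) :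
    Tendsto (fun k => rat p q (Ω k)) atTop (𝓝 (Jr p / Jr q)) := by
  have hp : 1 < p := hq.trans hqp
  rw [tendsto_order]
  refine ⟨fun a ha => ?_, fun b hb => Eventually.of_forall fun k => (hlt _ (hA k)).trans hb⟩
  obtain ⟨A, hA1, hlong⟩ := h3 p q (Jr p / Jr q - a) hq hqp (by linarith)
  filter_upwards [hd.eventually_gt_atTop (2 * A)] with k hk
  obtain ⟨c, ρ, hB⟩ := h1 (Ω k) (hA k)
  obtain ⟨n1, n2, n3⟩ := h2 (Ω k) c ρ (hA k) hB
  have hρ0 := hB.1
  have hρ1 : ρ ≤ 1 := by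
    by_contra hcon
    push Not at hcon
    have hsub : ball c 1 ⊆ Ω k := (ball_subset_ball hcon.le).trans hB.2.1
    have hle := measure_mono (μ := volume) hsub
    rw [hv k, EuclideanSpace.volume_ball_fin_two] at hle
    simp only [ENNReal.ofReal_one, one_pow, one_mul] at hle
    have h5 : (Real.pi : ℝ) ≤ 1 := ENNReal.ofReal_le_one.1 hle
    linarith [Real.pi_gt_three]
  have hex : ∃ x ∈ nrm (Ω k) c ρ, A ≤ ‖x‖ := by
    by_contra hcon
    push Not at hcon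
    have hsub : Ω k ⊆ ball c (A * ρ) := by
      intro x hx
      have h3 : ρ⁻¹ • (x - c) ∈ nrm (Ω k) c ρ := by
        show c + ρ • (ρ⁻¹ • (x - c)) ∈ Ω k
        rw [smul_smul, mul_inv_cancel₀ hρ0.ne', one_smul]
        simpa using hx
      have h4 := hcon _ h3
      rw [norm_smul, norm_inv, Real.norm_of_nonneg hρ0.le, inv_mul_lt_iff₀ hρ0] at h4
      rw [mem_ball, dist_eq_norm]
      linarith
    have h5 : Metric.diam (Ω k) ≤ 2 * (A * ρ) := by
      refine (Metric.diam_mono hsub isBounded_ball).trans ?_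
      exact Metric.diam_ball (by positivity)
    have h6 : A * ρ ≤ A * 1 := mul_le_mul_of_nonneg_left hρ1 (by linarith)
    linarith
  have := hlong _ n1 n2 hex
  rw [n3 p q hp hq] at this
  linarith

/-- part (a) -/
theorem part_a (h1 : S_hp) (h2 : S_norm) (h3 : S_long) (h4 : S_compact) (h5 : S_cont)
    {p q : ℝ} (hq : 1 < q) (hqp : q < p)
    (hlt : ∀ Ω : Set E2, Adm Ω → rat p q Ω < Jr p / Jr q) :
    ∃ Ω : Set E2, Adm Ω ∧ ∀ Ω' : Set E2, Adm Ω' → rat p q Ω ≤ rat p q Ω' := by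
  have hp : 1 < p := hq.trans hqp
  set T : Set ℝ := (rat p q) '' {Ω | Adm Ω} with hT
  have hball : Adm (ball (0 : E2) 1) :=
    ⟨⟨0, mem_ball_self one_pos⟩, isBounded_ball, isOpen_ball, convex_ball _ _⟩
  have hne : T.Nonempty := ⟨_, ⟨_, hball, rfl⟩⟩
  have hbd : BddBelow T := by
    refine ⟨0, ?_⟩
    rintro _ ⟨Ω, hΩ, rfl⟩
    have h6 := lib_pos p Ω hp hΩ
    have h7 := lib_pos q Ω hq hΩ
    unfold rat
    positivity
  obtain ⟨s, -, hs, hsT⟩ := exists_seq_tendsto_sInf hne hbd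
  have hm : sInf T < Jr p / Jr q :=
    lt_of_le_of_lt (csInf_le hbd ⟨_, hball, rfl⟩) (hlt _ hball)
  choose Ω hΩ hΩs using hsT
  choose c ρ hB using fun k => h1 (Ω k) (hΩ k)
  have hn := fun k => h2 (Ω k) (c k) (ρ k) (hΩ k) (hB k)
  obtain ⟨A, hA1, hlong⟩ := h3 p q ((Jr p / Jr q - sInf T) / 2) hq hqp (by linarith)
  obtain ⟨N, hN⟩ := eventually_atTop.1 (hs.eventually_lt_const
    (show sInf T < Jr p / Jr q - (Jr p / Jr q - sInf T) / 2 by linarith))
  have hrat : ∀ k, rat p q (nrm (Ω k) (c k) (ρ k)) = s k := fun k => by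
    rw [(hn k).2.2 p q hp hq, hΩs k]
  have hsub : ∀ k, nrm (Ω (k + N)) (c (k + N)) (ρ (k + N)) ⊆ ball 0 A := by
    intro k x hx
    by_contra hcon
    rw [mem_ball_zero_iff, not_lt] at hcon
    have h6 := hlong _ (hn (k + N)).1 (hn (k + N)).2.1 ⟨x, hx, hcon⟩
    rw [hrat] at h6
    have h7 := hN (k + N) (by omega)
    linarith
  obtain ⟨Ω₀, φ, h0, -, hφ, hlim⟩ := h4 A (fun k => nrm (Ω (k + N)) (c (k + N)) (ρ (k + N)))
    (fun k => (hn (k + N)).1) (fun k => (hn (k + N)).2.1.2.1) hsub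
  have hc := h5 p q hq hp Ω₀ (fun k => nrm (Ω (φ k + N)) (c (φ k + N)) (ρ (φ k + N))) h0
    (fun k => (hn (φ k + N)).1) hlim
  have hc2 : Tendsto (fun k => rat p q (nrm (Ω (φ k + N)) (c (φ k + N)) (ρ (φ k + N)))) atTop
      (𝓝 (sInf T)) := by
    simp only [hrat]
    exact hs.comp ((tendsto_add_atTop_nat N).comp hφ.tendsto_atTop)
  have heq := tendsto_nhds_unique hc hc2
  refine ⟨Ω₀, h0, fun Ω' hΩ' => ?_⟩
  rw [heq]
  exact csInf_le hbd ⟨Ω', hΩ', rfl⟩

end Pool.Agent.R812.EV
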