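import Pool.Agent.R812.EV.Stm

/-!
# EV-COMPACT: selection theorem by gauges
-/

set_option autoImplicit false

open MeasureTheory Set Metric Filter Topology
open scoped InnerProductSpace NNReal

namespace Pool.Agent.R812.EV

namespace CompactAux

/-- the gauge of an admissible set -/
structure Gg (A : ℝ) (g : E2 → ℝ) : Prop where
  add : ∀ x y, g (x + y) ≤ g x + g y
  smul : ∀ (a : ℝ) x, 0 ≤ a → g (a • x) = a * g x
  lo : ∀ x, ‖x‖ ≤ A * g x
  hi : ∀ x, g x ≤ ‖x‖

theorem Gg.lip {A : ℝ} {g : E2 → ℝ} (h : Gg A g) (x y : E2) : |g x - g y| ≤ ‖x - y‖ := by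
  have h1 : g x ≤ g y + ‖x - y‖ := by
    have h2 := h.add y (x - y)
    rw [add_sub_cancel] at h2
    linarith [h.hi (x - y)]
  have h3 : g y ≤ g x + ‖x - y‖ := by
    have h2 := h.add x (y - x)
    rw [add_sub_cancel] at h2
    have h4 := h.hi (y - x)
    rw [norm_sub_rev] at h4
    linarith
  rw [abs_le]
  constructor <;> linarith

theorem Gg.zero {A : ℝ} {g : E2 → ℝ} (h : Gg A g) : g 0 = 0 := by
  have := h.smul 0 0 le_rfl
  simpa using this

theorem gauge_gg {A : ℝ} (hA : 0 < A) {Ω : Set E2} (h : Adm Ω) (h1 : ball 0 1 ⊆ Ω)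
    (h2 : Ω ⊆ ball 0 A) : Gg A (gauge Ω) := by
  have habs : Absorbent ℝ Ω := absorbent_nhds_zero (Filter.mem_of_superset
    (Metric.ball_mem_nhds 0 one_pos) h1)
  refine ⟨fun x y => gauge_add_le h.2.2.2 habs x y, fun a x ha => ?_, fun x => ?_, fun x => ?_⟩
  · rw [gauge_smul_of_nonneg ha, smul_eq_mul]
  · have h3 := le_gauge_of_subset_closedBall (x := x) habs hA.le (h2.trans ball_subset_closedBall)
    rw [div_le_iff₀ hA] at h3
    linarith
  · have h3 := mul_gauge_le_norm (x := x) h1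
    linarith

abbrev X := closedBall (0 : E2) 1

open BoundedContinuousFunction

/-- the set of functions -/
def FS : Set (X →ᵇ ℝ) := {f | (∀ x y, |f x - f y| ≤ dist x y) ∧ ∀ x, f x ∈ Icc (0 : ℝ) 1}

theorem FS_compact : IsCompact FS := by
  have hX : CompactSpace X := isCompact_iff_compactSpace.1 (isCompact_closedBall 0 1)
  refine arzela_ascoli₂ (Icc (0 : ℝ) 1) isCompact_Icc FS ?_ (fun f x hf => hf.2 x) ?_
  · have h1 : FS = (⋂ x : X, ⋂ y : X, {f : X →ᵇ ℝ | |f x - f y| ≤ dist x y}) ∩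
        ⋂ x : X, {f : X →ᵇ ℝ | f x ∈ Icc (0 : ℝ) 1} := by
      ext f
      simp only [FS, mem_ofPred_eq, mem_inter_iff, mem_iInter]
    rw [h1]
    refine IsClosed.inter ?_ ?_
    · refine isClosed_iInter fun x => isClosed_iInter fun y => ?_
      exact isClosed_le (((continuous_eval_const x).sub (continuous_eval_const y)).abs) continuous_const
    · refine isClosed_iInter fun x => ?_
      exact isClosed_Icc.preimage (continuous_eval_const x)
  · have h2 : UniformEquicontinuous ((↑) : FS → X → ℝ) := by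
      refine Metric.uniformEquicontinuous_iff.2 fun ε hε => ⟨ε, hε, fun x y hxy f => ?_⟩
      rw [Real.dist_eq]
      exact lt_of_le_of_lt (f.2.1 x y) hxy
    exact h2.equicontinuous

/-- restriction of a gauge -/
noncomputable def rs {A : ℝ} {g : E2 → ℝ} (h : Gg A g) : X →ᵇ ℝ :=
  BoundedContinuousFunction.mkOfBound ⟨fun x => g x, by
    have h1 : LipschitzWith 1 g := LipschitzWith.of_dist_le_mul fun x y => by
      rw [NNReal.coe_one, one_mul, Real.dist_eq, dist_eq_norm]
      exact h.lip x y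
    exact h1.continuous.comp continuous_subtype_val⟩ 2 (fun x y => by
      show dist (g x) (g y) ≤ 2
      rw [Real.dist_eq]
      refine (h.lip x y).trans ((norm_sub_le _ _).trans ?_)
      have h1 := x.2
      have h2 := y.2
      rw [mem_closedBall_zero_iff] at h1 h2
      linarith)

theorem rs_apply {A : ℝ} {g : E2 → ℝ} (h : Gg A g) (x : X) : rs h x = g x := rfl

theorem Gg.nonneg {A : ℝ} (hA : 0 < A) {g : E2 → ℝ} (h : Gg A g) (x : E2) : 0 ≤ g x := by
  have h1 := h.lo x
  have h2 := norm_nonneg x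
  by_contra h3
  push Not at h3
  nlinarith

theorem rs_mem {A : ℝ} (hA : 0 < A) {g : E2 → ℝ} (h : Gg A g) : rs h ∈ FS := by
  refine ⟨fun x y => ?_, fun x => ⟨h.nonneg hA x, ?_⟩⟩
  · rw [rs_apply, rs_apply, Subtype.dist_eq, dist_eq_norm]
    exact h.lip x y
  · rw [rs_apply]
    have h1 := x.2
    rw [mem_closedBall_zero_iff] at h1
    exact (h.hi x).trans h1

end CompactAux

open CompactAux BoundedContinuousFunction

theorem piece_compact : S_compact := by
  intro A Ω hΩ h1 h2
  have hA : 0 < A := by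
    have h3 : (0 : E2) ∈ ball (0 : E2) A := h2 0 (h1 0 (mem_ball_self one_pos))
    exact pos_of_mem_ball h3
  have hX : CompactSpace X := isCompact_iff_compactSpace.1 (isCompact_closedBall 0 1)
  have hg : ∀ k, Gg A (gauge (Ω k)) := fun k => gauge_gg hA (hΩ k) (h1 k) (h2 k)
  obtain ⟨f, hf, φ, hφ, hlim⟩ := FS_compact.tendsto_subseq (x := fun k => rs (hg k))
    fun k => rs_mem hA (hg k)
  obtain ⟨e, he⟩ : ∃ e : ℕ → ℝ, e = fun k => dist (rs (hg (φ k))) f := ⟨_, rfl⟩
  have he0 : Tendsto e atTop (𝓝 0) := by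
    rw [he]
    exact tendsto_iff_dist_tendsto_zero.1 hlim
  have hen : ∀ k, 0 ≤ e k := fun k => by rw [he]; exact dist_nonneg
  have hmem : ∀ x : E2, ‖x‖⁻¹ • x ∈ closedBall (0 : E2) 1 := by
    intro x
    rw [mem_closedBall_zero_iff, norm_smul, norm_inv, norm_norm]
    rcases eq_or_ne ‖x‖ 0 with h3 | h3
    · rw [h3]
      simp
    · rw [inv_mul_cancel₀ h3]
  obtain ⟨g, hgd⟩ : ∃ g : E2 → ℝ, g = fun x => ‖x‖ * f ⟨‖x‖⁻¹ • x, hmem x⟩ := ⟨_, rfl⟩
  have hclose : ∀ k x, |gauge (Ω (φ k)) x - g x| ≤ e k * ‖x‖ := by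
    intro k x
    have h3 : gauge (Ω (φ k)) x = ‖x‖ * gauge (Ω (φ k)) (‖x‖⁻¹ • x) := by
      rw [← (hg (φ k)).smul ‖x‖ _ (norm_nonneg x)]
      rcases eq_or_ne x 0 with rfl | h4
      · simp
      · rw [smul_smul, mul_inv_cancel₀ (norm_ne_zero_iff.2 h4), one_smul]
    rw [h3, hgd]
    beta_reduce
    rw [← mul_sub, abs_mul, abs_of_nonneg (norm_nonneg x), mul_comm]
    refine mul_le_mul_of_nonneg_right ?_ (norm_nonneg x)
    have h5 := BoundedContinuousFunction.dist_coe_le_dist (f := rs (hg (φ k))) (g := f)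
      (⟨‖x‖⁻¹ • x, hmem x⟩ : X)
    rw [he]
    rw [Real.dist_eq, rs_apply] at h5
    exact h5
  have hpt : ∀ x, Tendsto (fun k => gauge (Ω (φ k)) x) atTop (𝓝 (g x)) := by
    intro x
    rw [tendsto_iff_dist_tendsto_zero]
    refine squeeze_zero (fun k => dist_nonneg) (fun k => ?_)
      (by simpa using he0.mul_const ‖x‖)
    rw [Real.dist_eq]
    exact hclose k x
  have hG : Gg A g := by
    refine ⟨fun x y => ?_, fun a x ha => ?_, fun x => ?_, fun x => ?_⟩
    · exact le_of_tendsto_of_tendsto' (hpt (x + y)) ((hpt x).add (hpt y))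
        fun k => (hg (φ k)).add x y
    · refine tendsto_nhds_unique (hpt (a • x)) ?_
      refine ((hpt x).const_mul a).congr fun k => ?_
      rw [(hg (φ k)).smul a x ha]
    · exact ge_of_tendsto' ((hpt x).const_mul A) fun k => (hg (φ k)).lo x
    · exact le_of_tendsto' (hpt x) fun k => (hg (φ k)).hi x
  have hgc : Continuous g := by
    have h3 : LipschitzWith 1 g := LipschitzWith.of_dist_le_mul fun x y => by
      rw [NNReal.coe_one, one_mul, Real.dist_eq, dist_eq_norm]
      exact hG.lip x y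
    exact h3.continuous
  have hiff : ∀ k x, x ∈ Ω k ↔ gauge (Ω k) x < 1 := by
    intro k x
    have h3 := setOfPred_gauge_lt_one_eq_self_of_isOpen (hΩ k).2.2.2 (h1 k (mem_ball_self one_pos))
      (hΩ k).2.2.1
    constructor
    · intro h4
      rw [← h3] at h4
      exact h4
    · intro h4
      rw [← h3]
      exact h4
  refine ⟨{x | g x < 1}, φ, ⟨⟨0, ?_⟩, ?_, ?_, ?_⟩, ?_, hφ, fun t ht => ?_⟩
  · show g 0 < 1
    rw [hG.zero]
    exact one_pos
  · refine (isBounded_ball (x := (0 : E2)) (r := A)).subset fun x hx => ?_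
    have hx' : g x < 1 := hx
    rw [mem_ball_zero_iff]
    refine lt_of_le_of_lt (hG.lo x) ?_
    calc A * g x < A * 1 := mul_lt_mul_of_pos_left hx' hA
      _ = A := mul_one A
  · exact isOpen_lt hgc continuous_const
  · intro x hx y hy a b ha hb hab
    have hx' : g x < 1 := hx
    have hy' : g y < 1 := hy
    show g (a • x + b • y) < 1
    refine lt_of_le_of_lt (hG.add _ _) ?_
    rw [hG.smul a x ha, hG.smul b y hb]
    rcases eq_or_lt_of_le ha with h3 | h3
    · have hb1 : b = 1 := by linarith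
      rw [← h3, hb1]
      linarith
    · have h4 : a * g x < a * 1 := mul_lt_mul_of_pos_left hx' h3
      have h5 : b * g y ≤ b * 1 := mul_le_mul_of_nonneg_left hy'.le hb
      linarith
  · show g 0 < 1
    rw [hG.zero]
    exact one_pos
  · have ht0 : 0 < t := by linarith
    have hev : ∀ᶠ k in atTop, e k * A < t - 1 := by
      have h3 : Tendsto (fun k => e k * A) atTop (𝓝 0) := by simpa using he0.mul_const A
      exact h3.eventually (gt_mem_nhds (by linarith))
    filter_upwards [hev] with k hk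
    have hti : 0 ≤ t⁻¹ := (inv_pos.2 ht0).le
    have key : ∀ a b : ℝ, ∀ x : E2, 0 ≤ a → ‖x‖ ≤ A * a → b ≤ a + e k * ‖x‖ → a < 1 →
        t⁻¹ * b < 1 := by
      intro a b x ha hx hb ha1
      have h3 : e k * ‖x‖ ≤ e k * (A * a) := mul_le_mul_of_nonneg_left hx (hen k)
      have h4 : b ≤ (1 + e k * A) * a := by linarith
      have h5 : (1 + e k * A) * a ≤ t * a := mul_le_mul_of_nonneg_right (by linarith) ha
      have h6 : t⁻¹ * b ≤ t⁻¹ * (t * a) := mul_le_mul_of_nonneg_left (h4.trans h5) hti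
      rw [← mul_assoc, inv_mul_cancel₀ ht0.ne', one_mul] at h6
      linarith
    constructor
    · intro x hx
      rw [hiff, (hg (φ k)).smul _ _ hti]
      refine key (g x) _ x (hG.nonneg hA x) (hG.lo x) ?_ hx
      have h3 := (abs_le.1 (hclose k x)).2
      linarith
    · intro x hx
      rw [hiff] at hx
      show g (t⁻¹ • x) < 1
      rw [hG.smul _ _ hti]
      refine key (gauge (Ω (φ k)) x) _ x ((hg (φ k)).nonneg hA x) ((hg (φ k)).lo x) ?_ hx
      have h3 := (abs_le.1 (hclose k x)).1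
      linarith

end Pool.Agent.R812.EV
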