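import Pool.Agent.R812.EV.Stm

/-!
# Continuity of the ratio
-/

open MeasureTheory Set Metric Filter Topology
open scoped InnerProductSpace Pointwise

namespace Pool.Agent.R812.EV

open Pool.Agent.TH281.PC (lam lamSet Jr)

lemma cont_key (h1 : H_scale) (h2 : H_mono) (r t : ℝ) (ht : 1 < t) (A B : Set E2)
    (hA : IsOpen A) (hne : A.Nonempty) (hsub : ∀ x ∈ A, t⁻¹ • x ∈ B) :
    lam r B ≤ t ^ r * lam r A := by
  have ht0 : 0 < t := by linarith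
  have hi : 0 < t⁻¹ := inv_pos.mpr ht0
  have e1 := h1 r t⁻¹ 0 A hi hA hne
  have himg : (fun x : E2 => t⁻¹ • x + 0) '' A = t⁻¹ • A := by
    simp only [add_zero]
    rfl
  rw [himg] at e1
  have hop : IsOpen (t⁻¹ • A) := hA.smul₀ hi.ne'
  have hne' : (t⁻¹ • A).Nonempty := hne.smul_set
  have hss : t⁻¹ • A ⊆ B := by
    rintro _ ⟨x, hx, rfl⟩
    exact hsub x hx
  have e2 := h2 r _ _ hss hop hne'
  rw [e1, ← mul_assoc, ← Real.mul_rpow ht0.le hi.le, mul_inv_cancel₀ ht0.ne', Real.one_rpow,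
    one_mul]
  exact e2

lemma cont_lam (h1 : H_scale) (h2 : H_mono) (r : ℝ) (Ω₀ : Set E2) (Ω : ℕ → Set E2)
    (h0 : Adm Ω₀) (hk : ∀ k, Adm (Ω k))
    (h : ∀ t : ℝ, 1 < t → ∀ᶠ k in atTop, (∀ x ∈ Ω₀, t⁻¹ • x ∈ Ω k) ∧ (∀ x ∈ Ω k, t⁻¹ • x ∈ Ω₀)) :
    Tendsto (fun k => lam r (Ω k)) atTop (𝓝 (lam r Ω₀)) := by
  have hc : ∀ b : ℝ, Tendsto (fun t : ℝ => t ^ r * b) (𝓝[>] 1) (𝓝 b) := by
    intro b
    have h3 : ContinuousAt (fun t : ℝ => t ^ r * b) 1 :=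
      (Real.continuousAt_rpow_const 1 r (Or.inl one_ne_zero)).mul continuousAt_const
    have h4 := h3.tendsto
    rw [Real.one_rpow, one_mul] at h4
    exact h4.mono_left nhdsWithin_le_nhds
  refine tendsto_order.2 ⟨fun a ha => ?_, fun a ha => ?_⟩
  · obtain ⟨t, ht, ht1⟩ := (((hc a).eventually (gt_mem_nhds ha)).and self_mem_nhdsWithin).exists
    have ht1' : 1 < t := ht1
    filter_upwards [h t ht1'] with k hk'
    have h5 := cont_key h1 h2 r t ht1' (Ω k) Ω₀ (hk k).2.2.1 (hk k).1 hk'.2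
    have h6 : 0 < t ^ r := Real.rpow_pos_of_pos (by linarith) r
    have h7 : t ^ r * a < t ^ r * lam r (Ω k) := lt_of_lt_of_le ht h5
    exact lt_of_mul_lt_mul_left h7 h6.le
  · obtain ⟨t, ht, ht1⟩ := (((hc (lam r Ω₀)).eventually (gt_mem_nhds ha)).and
      self_mem_nhdsWithin).exists
    have ht1' : 1 < t := ht1
    filter_upwards [h t ht1'] with k hk'
    exact lt_of_le_of_lt (cont_key h1 h2 r t ht1' Ω₀ (Ω k) h0.2.2.1 h0.1 hk'.1) ht

theorem piece_cont (h1 : H_scale) (h2 : H_mono) (h3 : H_pos) : S_cont := by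
  intro p q hq hp Ω₀ Ω h0 hk h
  have hp0 := h3 p Ω₀ hp h0
  have hq0 := h3 q Ω₀ hq h0
  have e1 := (cont_lam h1 h2 p Ω₀ Ω h0 hk h).rpow_const (p := 1 / p) (Or.inl hp0.ne')
  have e2 := (cont_lam h1 h2 q Ω₀ Ω h0 hk h).rpow_const (p := 1 / q) (Or.inl hq0.ne')
  exact e1.div e2 (Real.rpow_pos_of_pos hq0 _).ne'

end Pool.Agent.R812.EV
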