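import Pool.Agent.R812.EV.Stm
import Pool.Agent.H73R3.Hull

/-! EV-CONTACT: contact normals of a maximal inscribed disc. -/

open Metric Set Filter Topology
open scoped InnerProductSpace

namespace Pool.Agent.R812.EV

/-- the contact normals (in a weak sense) of the disc with centre `c` and radius `ρ` -/
def CN (Ω : Set E2) (c : E2) (ρ : ℝ) : Set E2 := {ν | ‖ν‖ = 1 ∧ ∀ x ∈ Ω, ⟪x - c, ν⟫_ℝ ≤ ρ}

theorem isCompact_CN (Ω : Set E2) (c : E2) (ρ : ℝ) : IsCompact (CN Ω c ρ) := by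
  have h : CN Ω c ρ = sphere (0 : E2) 1 ∩ ⋂ x ∈ Ω, {ν : E2 | ⟪x - c, ν⟫_ℝ ≤ ρ} := by
    ext ν
    simp [CN]
  rw [h]
  apply (isCompact_sphere (0 : E2) 1).inter_right
  apply isClosed_biInter
  intro x _
  exact isClosed_le (by fun_prop) continuous_const

theorem CN_step (Ω : Set E2) (hne : Ω.Nonempty) (hop : IsOpen Ω) (hconv : Convex ℝ Ω)
    (hcne : (Ωᶜ).Nonempty) (c c' : E2) (ρ : ℝ) (hc' : infDist c' Ωᶜ ≤ ρ) :
    ∃ ν : E2, ‖ν‖ = 1 ∧ ∀ x ∈ Ω, ⟪x - c, ν⟫_ℝ ≤ ρ - ⟪c - c', ν⟫_ℝ := by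
  obtain ⟨y, hy, hyd⟩ := (hop.isClosed_compl).exists_infDist_eq_dist hcne c'
  obtain ⟨f, hf⟩ := geometric_hahn_banach_open_point hconv hop hy
  set v : E2 := (InnerProductSpace.toDual ℝ E2).symm f with hv
  have hfv : ∀ x, ⟪v, x⟫_ℝ = f x := fun x => InnerProductSpace.toDual_symm_apply
  have hv0 : v ≠ 0 := by
    intro h0
    obtain ⟨x, hx⟩ := hne
    have h1 := hf x hx
    rw [← hfv, ← hfv, h0, inner_zero_left, inner_zero_left] at h1
    exact lt_irrefl _ h1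
  have hvn : 0 < ‖v‖ := norm_pos_iff.2 hv0
  refine ⟨‖v‖⁻¹ • v, ?_, ?_⟩
  · rw [norm_smul, norm_inv, norm_norm, inv_mul_cancel₀ hvn.ne']
  · intro x hx
    have hn1 : ‖‖v‖⁻¹ • v‖ = 1 := by
      rw [norm_smul, norm_inv, norm_norm, inv_mul_cancel₀ hvn.ne']
    have h1 : ⟪x - y, ‖v‖⁻¹ • v⟫_ℝ ≤ 0 := by
      rw [inner_smul_right, real_inner_comm, inner_sub_right, hfv, hfv]
      have h2 := hf x hx
      have h3 : 0 < ‖v‖⁻¹ := inv_pos.2 hvn
      have h4 : ‖v‖⁻¹ * (f x - f y) < 0 := mul_neg_of_pos_of_neg h3 (by linarith)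
      exact h4.le
    have h5 : ⟪y - c', ‖v‖⁻¹ • v⟫_ℝ ≤ ρ := by
      have h6 := real_inner_le_norm (y - c') (‖v‖⁻¹ • v)
      rw [hn1, mul_one] at h6
      rw [dist_comm, dist_eq_norm] at hyd
      linarith
    have h7 : x - c = (x - y) + (y - c') - (c - c') := by abel
    rw [h7, inner_sub_left, inner_add_left]
    linarith

theorem piece_contact : S_contact := by
  intro Ω hΩ
  obtain ⟨hne, hbd, hop, hconv⟩ := hΩ
  have hcne : (Ωᶜ).Nonempty := by
    by_contra h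
    rw [Set.not_nonempty_iff_eq_empty, Set.compl_empty_iff] at h
    rw [h] at hbd
    exact NormedSpace.unbounded_univ ℝ E2 hbd
  have hccl : IsClosed (Ωᶜ) := hop.isClosed_compl
  obtain ⟨c, hcK, hcmax⟩ := hbd.isCompact_closure.exists_isMaxOn hne.closure
    (continuous_infDist_pt (Ωᶜ)).continuousOn
  set ρ : ℝ := infDist c Ωᶜ with hρ
  have hmax : ∀ x ∈ closure Ω, infDist x Ωᶜ ≤ ρ := fun x hx => hcmax hx
  have hρ0 : 0 < ρ := by
    obtain ⟨x, hx⟩ := hne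
    have h1 : 0 < infDist x Ωᶜ := (hccl.notMem_iff_infDist_pos hcne).1 (fun h => h hx)
    exact lt_of_lt_of_le h1 (hmax x (subset_closure hx))
  have hball : ball c ρ ⊆ Ω := by
    intro y hy
    by_contra hyn
    have h1 : infDist c Ωᶜ ≤ dist c y := infDist_le_dist_of_mem hyn
    rw [mem_ball, dist_comm] at hy
    linarith
  have hall : ∀ x : E2, infDist x Ωᶜ ≤ ρ := by
    intro x
    by_cases hx : x ∈ closure Ω
    · exact hmax x hx
    · have h1 : x ∈ Ωᶜ := fun h => hx (subset_closure h)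
      rw [infDist_zero_of_mem h1]
      exact hρ0.le
  have hclaim : (0 : E2) ∈ convexHull ℝ (CN Ω c ρ) := by
    by_contra h0
    obtain ⟨f, u, hf0, hfu⟩ := geometric_hahn_banach_point_closed (convex_convexHull ℝ _)
      (Pool.Agent.H73R3.compact_hull (isCompact_CN Ω c ρ)).isClosed h0
    rw [map_zero] at hf0
    set e : E2 := (InnerProductSpace.toDual ℝ E2).symm f with he
    have hfe : ∀ x, ⟪e, x⟫_ℝ = f x := fun x => InnerProductSpace.toDual_symm_apply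
    have hstep : ∀ n : ℕ, ∃ ν : E2, ‖ν‖ = 1 ∧
        ∀ x ∈ Ω, ⟪x - c, ν⟫_ℝ ≤ ρ - (1 / ((n : ℝ) + 1)) * ⟪e, ν⟫_ℝ := by
      intro n
      obtain ⟨ν, h1, h2⟩ := CN_step Ω hne hop hconv hcne c
        (c - (1 / ((n : ℝ) + 1)) • e) ρ (hall _)
      refine ⟨ν, h1, fun x hx => ?_⟩
      have h3 := h2 x hx
      rwa [sub_sub_cancel, real_inner_smul_left] at h3
    choose ν hν1 hν2 using hstep
    have hneg : ∀ n, ⟪e, ν n⟫_ℝ ≤ 0 := by
      intro n
      by_contra hpos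
      push Not at hpos
      have ht : 0 < 1 / ((n : ℝ) + 1) := by positivity
      set k : ℝ := (1 / ((n : ℝ) + 1)) * ⟪e, ν n⟫_ℝ with hk
      have hk0 : 0 < k := mul_pos ht hpos
      set s : ℝ := max 0 (ρ - k / 2) with hs
      have hs0 : 0 ≤ s := le_max_left _ _
      have hsρ : s < ρ := max_lt hρ0 (by linarith)
      have hmem : c + s • ν n ∈ Ω := by
        apply hball
        rw [mem_ball, dist_eq_norm, add_sub_cancel_left, norm_smul, hν1, mul_one,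
          Real.norm_of_nonneg hs0]
        exact hsρ
      have h1 := hν2 n _ hmem
      rw [add_sub_cancel_left, real_inner_smul_left, real_inner_self_eq_norm_sq, hν1] at h1
      have h2 : ρ - k / 2 ≤ s := le_max_right _ _
      linarith
    obtain ⟨a, ha, φ, hφ, hlim⟩ := (isCompact_sphere (0 : E2) 1).tendsto_subseq
      (x := ν) (fun n => by rw [mem_sphere, dist_zero_right]; exact hν1 n)
    have ha1 : ‖a‖ = 1 := by
      rw [mem_sphere, dist_zero_right] at ha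
      exact ha
    have hea : Tendsto (fun n => ⟪e, ν (φ n)⟫_ℝ) atTop (𝓝 ⟪e, a⟫_ℝ) :=
      tendsto_const_nhds.inner hlim
    have hea0 : ⟪e, a⟫_ℝ ≤ 0 := le_of_tendsto' hea (fun n => hneg _)
    have haN : a ∈ CN Ω c ρ := by
      refine ⟨ha1, fun x hx => ?_⟩
      have h1 : Tendsto (fun n => ⟪x - c, ν (φ n)⟫_ℝ) atTop (𝓝 ⟪x - c, a⟫_ℝ) :=
        tendsto_const_nhds.inner hlim
      have h2 : Tendsto (fun n : ℕ => 1 / (((φ n : ℕ) : ℝ) + 1)) atTop (𝓝 0) :=
        tendsto_one_div_add_atTop_nhds_zero_nat.comp hφ.tendsto_atTop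
      have h3 : Tendsto (fun n => ρ - (1 / (((φ n : ℕ) : ℝ) + 1)) * ⟪e, ν (φ n)⟫_ℝ) atTop
          (𝓝 (ρ - 0 * ⟪e, a⟫_ℝ)) := tendsto_const_nhds.sub (h2.mul hea)
      rw [zero_mul, sub_zero] at h3
      exact le_of_tendsto_of_tendsto' h1 h3 (fun n => hν2 (φ n) x hx)
    have h4 := hfu a (subset_convexHull ℝ _ haN)
    rw [← hfe] at h4
    linarith
  rw [convexHull_eq_union_convexHull_finite_subsets] at hclaim
  simp only [mem_iUnion] at hclaim
  obtain ⟨s, hsN, hs0⟩ := hclaim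
  refine ⟨c, ρ, s, hρ0, hball, fun ν hν => (hsN hν).1, ?_, hs0⟩
  intro ν hν x hx
  obtain ⟨ε, hε, hεb⟩ := Metric.isOpen_iff.1 hop x hx
  have hν1 : ‖ν‖ = 1 := (hsN hν).1
  have hmem : x + (ε / 2) • ν ∈ Ω := by
    apply hεb
    rw [mem_ball, dist_eq_norm, add_sub_cancel_left, norm_smul, hν1, mul_one,
      Real.norm_of_nonneg (by linarith)]
    linarith
  have h1 := (hsN hν).2 _ hmem
  have h2 : x + (ε / 2) • ν - c = (x - c) + (ε / 2) • ν := by abel
  rw [h2, inner_add_left, real_inner_smul_left, real_inner_self_eq_norm_sq, hν1] at h1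
  linarith

end Pool.Agent.R812.EV
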