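import Pool.Agent.R812.EV.Stm
import Pool.Agent.TH925.J54

/-!
# The inequality of Hersch and Protter (piece HP)
-/

open MeasureTheory Set Metric Filter Topology
open scoped InnerProductSpace

namespace Pool.Agent.R812.EV

open Pool.Agent.TH281.PC (lam lamSet Jr)

namespace HPx

/-- the cell of `ν` -/
def cell (s : Finset E2) (ν : E2) : Set E2 := {x | ∀ μ ∈ s, μ ≠ ν → ⟪x, μ⟫_ℝ < ⟪x, ν⟫_ℝ}

theorem cell_meas (s : Finset E2) (ν : E2) : MeasurableSet (cell s ν) := by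
  have h : cell s ν = ⋂ μ ∈ s, {x : E2 | μ ≠ ν → ⟪x, μ⟫_ℝ < ⟪x, ν⟫_ℝ} := by
    ext x
    simp [cell]
  rw [h]
  refine MeasurableSet.biInter s.countable_toSet fun μ _ => ?_
  by_cases hμ : μ = ν
  · have h1 : {x : E2 | μ ≠ ν → ⟪x, μ⟫_ℝ < ⟪x, ν⟫_ℝ} = univ := by
      ext x
      simp [hμ]
    rw [h1]
    exact MeasurableSet.univ
  · have h1 : {x : E2 | μ ≠ ν → ⟪x, μ⟫_ℝ < ⟪x, ν⟫_ℝ} = {x : E2 | ⟪x, μ⟫_ℝ < ⟪x, ν⟫_ℝ} := by
      ext x
      simp [hμ]
    rw [h1]
    exact (isOpen_lt (by fun_prop) (by fun_prop)).measurableSet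

theorem cell_nonneg {s : Finset E2} (h0 : (0 : E2) ∈ convexHull ℝ (s : Set E2)) {ν x : E2}
    (hx : x ∈ cell s ν) : 0 ≤ ⟪x, ν⟫_ℝ := by
  by_contra hcon
  push Not at hcon
  have hc : Convex ℝ {y : E2 | ⟪x, y⟫_ℝ < 0} :=
    convex_halfSpace_lt ((innerₗ E2 x).isLinear) 0
  have hs : (s : Set E2) ⊆ {y : E2 | ⟪x, y⟫_ℝ < 0} := by
    intro μ hμ
    show ⟪x, μ⟫_ℝ < 0
    by_cases h : μ = ν
    · rw [h]
      exact hcon
    · exact (hx μ hμ h).trans hcon
  have h1 : ⟪x, (0 : E2)⟫_ℝ < 0 := convexHull_min hs hc h0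
  rw [inner_zero_right] at h1
  exact lt_irrefl _ h1

theorem cell_add {s : Finset E2} (hn : ∀ ν ∈ s, ‖ν‖ = 1) {ν x : E2} (hν : ν ∈ s)
    (hx : x ∈ cell s ν) {t : ℝ} (ht : 0 ≤ t) : x + t • ν ∈ cell s ν := by
  intro μ hμ hne
  rw [inner_add_left, inner_add_left, inner_smul_left, inner_smul_left,
    real_inner_self_eq_norm_sq, hn ν hν]
  have h1 := hx μ hμ hne
  have h2 : ⟪ν, μ⟫_ℝ ≤ 1 := by
    have h3 := real_inner_le_norm ν μ
    rw [hn ν hν, hn μ hμ, one_mul] at h3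
    exact h3
  have h3 := mul_le_mul_of_nonneg_left h2 ht
  simp only [conj_trivial]
  linarith

theorem null_hyper {v : E2} (hv : v ≠ 0) : volume {x : E2 | ⟪v, x⟫_ℝ = 0} = 0 := by
  have h := Measure.addHaar_submodule (volume : Measure E2) (LinearMap.ker (innerₗ E2 v)) (by
    intro htop
    apply hv
    have h1 : v ∈ LinearMap.ker (innerₗ E2 v) := by
      rw [htop]
      trivial
    rw [LinearMap.mem_ker] at h1
    exact inner_self_eq_zero.1 h1)
  exact h

theorem cells_ae {s : Finset E2} (hs : s.Nonempty) :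
    (⋃ ν ∈ s, cell s ν) =ᵐ[volume] (univ : Set E2) := by
  classical
  rw [ae_eq_univ]
  have hsub : (⋃ ν ∈ s, cell s ν)ᶜ ⊆
      ⋃ ν ∈ s, ⋃ μ ∈ s.erase ν, {x : E2 | ⟪ν - μ, x⟫_ℝ = 0} := by
    intro x hx
    obtain ⟨ν, hν, hmax⟩ := s.exists_max_image (fun ν => ⟪x, ν⟫_ℝ) hs
    have h1 : x ∉ cell s ν := by
      intro h
      exact hx (mem_biUnion hν h)
    have h2 : ∃ μ ∈ s, μ ≠ ν ∧ ⟪x, ν⟫_ℝ ≤ ⟪x, μ⟫_ℝ := by
      by_contra hcon
      push Not at hcon
      exact h1 fun μ hμ hne => hcon μ hμ hne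
    obtain ⟨μ, hμ, hne, h3⟩ := h2
    refine mem_biUnion hν (mem_biUnion (Finset.mem_coe.2 (Finset.mem_erase.2 ⟨hne, hμ⟩)) ?_)
    show ⟪ν - μ, x⟫_ℝ = 0
    rw [real_inner_comm, inner_sub_right]
    have h4 := hmax μ hμ
    linarith
  refine measure_mono_null hsub ?_
  refine (measure_biUnion_null_iff s.countable_toSet).2 ?_
  intro ν _
  refine (measure_biUnion_null_iff (s.erase ν).countable_toSet).2 ?_
  intro μ hμ
  have hne := (Finset.mem_erase.1 (Finset.mem_coe.1 hμ)).1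
  exact null_hyper (sub_ne_zero.2 hne.symm)

theorem cells_integral {s : Finset E2} (hs : s.Nonempty) {f : E2 → ℝ} (hf : Integrable f) :
    ∫ x, f x = ∑ ν ∈ s, ∫ x in cell s ν, f x := by
  rw [← setIntegral_univ, ← setIntegral_congr_set (cells_ae hs),
    integral_biUnion_finset s (fun ν _ => cell_meas s ν)]
  · intro ν hν μ hμ hne
    rw [Function.onFun, Set.disjoint_left]
    intro x hx hx'
    exact lt_asymm (hx μ hμ hne.symm) (hx' ν hν hne)
  · intro ν _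
    exact hf.integrableOn

end HPx

open HPx in
theorem piece_hp (h1 : S_slice) (h2 : S_contact) : S_hp := by
  intro Ω hΩ
  obtain ⟨c, ρ, s, hρ, hball, hnorm, hsep, h0⟩ := h2 Ω hΩ
  refine ⟨c, ρ, hρ, hball, fun r hr => ?_⟩
  have hs : s.Nonempty := by
    rw [Finset.nonempty_iff_ne_empty]
    rintro rfl
    simp at h0
  refine le_csInf (Pool.Agent.TH925.J54.lamSet_nonempty r hΩ.2.2.1 hΩ.1) ?_
  rintro _ ⟨u, hu1, hu2, hu3, hu4, rfl⟩
  have hr0 : 0 < r := by linarith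
  have hpos : 0 < ∫ x, |u x| ^ r :=
    Pool.Agent.TH925.J54.integral_pos_of_ne_zero hu1.continuous hu2 hu4 hr0
  rw [le_div_iff₀ hpos]
  obtain ⟨w, hw⟩ : ∃ w : E2 → ℝ, w = fun x => u (x + c) := ⟨_, rfl⟩
  have hw1 : ContDiff ℝ 1 w := by
    rw [hw]
    exact hu1.comp (contDiff_id.add contDiff_const)
  have hw2 : HasCompactSupport w := by
    rw [hw]
    exact hu2.comp_homeomorph (Homeomorph.addRight c)
  have hw3 : ∀ x ∈ tsupport w, x + c ∈ Ω := by
    have hcl : IsClosed {x : E2 | x + c ∈ tsupport u} :=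
      (isClosed_tsupport u).preimage (continuous_add_const c)
    have hsub : tsupport w ⊆ {x : E2 | x + c ∈ tsupport u} := by
      refine closure_minimal ?_ hcl
      intro x hx
      rw [Function.mem_support, hw] at hx
      exact subset_tsupport u hx
    exact fun x hx => hu3 (hsub hx)
  have e1 : ∫ x, |u x| ^ r = ∫ x, |w x| ^ r := by
    rw [hw]
    exact (integral_add_right_eq_self (fun x => |u x| ^ r) c).symm
  have e2 : ∫ x, ‖fderiv ℝ u x‖ ^ r = ∫ x, ‖fderiv ℝ w x‖ ^ r := by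
    have h3 : ∀ x, fderiv ℝ w x = fderiv ℝ u (x + c) := by
      intro x
      rw [hw]
      exact fderiv_comp_add_right c
    simp only [h3]
    exact (integral_add_right_eq_self (fun x => ‖fderiv ℝ u x‖ ^ r) c).symm
  have i1 : Integrable (fun x => |w x| ^ r) := by
    refine Continuous.integrable_of_hasCompactSupport
      (hw1.continuous.abs.rpow_const fun x => Or.inr hr0.le) ?_
    exact hw2.comp_left (g := fun t : ℝ => |t| ^ r) (by simp [Real.zero_rpow hr0.ne'])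
  have i2 : Integrable (fun x => ‖fderiv ℝ w x‖ ^ r) := by
    refine Continuous.integrable_of_hasCompactSupport
      ((hw1.continuous_fderiv (by norm_num)).norm.rpow_const fun x => Or.inr hr0.le) ?_
    exact (hw2.fderiv ℝ).comp_left (g := fun t : E2 →L[ℝ] ℝ => ‖t‖ ^ r)
      (by simp [Real.zero_rpow hr0.ne'])
  rw [e1, e2, cells_integral hs i1, cells_integral hs i2, Finset.mul_sum]
  refine Finset.sum_le_sum fun ν hν => ?_
  refine h1 r ρ hr hρ ν (hnorm ν hν) w hw1 hw2 ?_ (cell s ν) (cell_meas s ν)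
    (fun x hx => cell_nonneg h0 hx) (fun x hx t ht => cell_add hnorm hν hx ht)
  intro x hx
  have h3 := hsep ν hν (x + c) (hw3 x hx)
  rwa [add_sub_cancel_right] at h3

end Pool.Agent.R812.EV
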