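import Pool.Agent.R812.EV.Stm

/-!
# Rotation invariance of the principal eigenvalue
-/

open MeasureTheory Set Metric Filter Topology
open scoped InnerProductSpace

namespace Pool.Agent.R812.EV

open Pool.Agent.TH281.PC (lam lamSet Jr)

theorem iso_mem (p : ℝ) (R : E2 ≃ₗᵢ[ℝ] E2) (Ω : Set E2) {r : ℝ} (hr : r ∈ lamSet p (R '' Ω)) :
    r ∈ lamSet p Ω := by
  obtain ⟨u, h1, h2, h3, h4, rfl⟩ := hr
  have key : ∀ g : E2 → ℝ, ∫ x, g (R x) = ∫ x, g x := fun g =>
    R.measurePreserving.integral_comp R.toHomeomorph.measurableEmbedding g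
  refine ⟨u ∘ R, h1.comp R.contDiff, h2.comp_homeomorph R.toHomeomorph, ?_, ?_, ?_⟩
  · have h5 : tsupport (u ∘ R) = R ⁻¹' tsupport u :=
      tsupport_comp_eq_preimage u R.toHomeomorph
    rw [h5]
    intro x hx
    obtain ⟨y, hy, hxy⟩ := h3 hx
    rw [← R.injective hxy]
    exact hy
  · intro h
    apply h4
    funext y
    obtain ⟨x, rfl⟩ := R.surjective y
    exact congrFun h x
  · have h6 : ∀ x, ‖fderiv ℝ (u ∘ R) x‖ ^ p = ‖fderiv ℝ u (R x)‖ ^ p := by
      intro x
      have h7 : HasFDerivAt u (fderiv ℝ u (R x)) (R x) :=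
        (h1.differentiable one_ne_zero _).hasFDerivAt
      have h8 : HasFDerivAt (R : E2 → E2) (R.toContinuousLinearEquiv : E2 →L[ℝ] E2) x :=
        (R.toContinuousLinearEquiv : E2 →L[ℝ] E2).hasFDerivAt
      rw [(h7.comp x h8).fderiv]
      exact congrArg (fun t : ℝ => t ^ p) (ContinuousLinearMap.opNorm_comp_linearIsometryEquiv _ R)
    have h7 : ∀ x, |(u ∘ R) x| ^ p = |u (R x)| ^ p := fun x => rfl
    simp only [h6, h7]
    rw [key (fun x => ‖fderiv ℝ u x‖ ^ p), key (fun x => |u x| ^ p)]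

theorem piece_iso : S_iso := by
  intro r R Ω
  have h : lamSet r (R '' Ω) = lamSet r Ω := by
    refine Subset.antisymm (fun s hs => iso_mem r R Ω hs) (fun s hs => ?_)
    apply iso_mem r R.symm (R '' Ω)
    have h2 : R.symm '' (R '' Ω) = Ω := by
      rw [image_image]
      simp
    rw [h2]
    exact hs
  unfold lam
  rw [h]

end Pool.Agent.R812.EV
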