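import Pool.Agent.R812.EV.Stm

/-!
# Long sets have ratio close to the upper bound
-/

open MeasureTheory Set Metric Filter Topology
open scoped InnerProductSpace

namespace Pool.Agent.R812.EV

open Pool.Agent.TH281.PC (lam lamSet Jr)

theorem piece_long (h1 : S_rect) (hJ : H_J) : S_long := by
  intro p q η hq hqp hη
  have hp : 1 < p := hq.trans hqp
  have hJp := hJ p hp
  have hJq := hJ q hq
  set a := Jr p / Jr q with ha
  have ha0 : 0 < a := div_pos hJp hJq
  set ε := η / (2 * a) with hε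
  have hε0 : 0 < ε := by positivity
  obtain ⟨A, hA1, hA2⟩ := h1 q ε hq hε0
  refine ⟨A, hA1, fun Ω hΩ hH hx => ?_⟩
  have h2 := hA2 Ω hΩ hH.2.1 hx
  have h3 := hH.2.2 p hp
  have h4 := hH.2.2 q hq
  rw [div_one] at h3 h4
  have hJqq : 0 < Jr q ^ q := Real.rpow_pos_of_pos hJq q
  have hJpp : 0 < Jr p ^ p := Real.rpow_pos_of_pos hJp p
  have hlq : 0 < lam q Ω := hJqq.trans_le h4
  have e1 : Jr p ≤ lam p Ω ^ (1 / p) := by
    have h5 := Real.rpow_le_rpow hJpp.le h3 (by positivity : 0 ≤ 1 / p)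
    rwa [← Real.rpow_mul hJp.le, mul_one_div_cancel (by linarith : p ≠ 0), Real.rpow_one] at h5
  have e2 : lam q Ω ^ (1 / q) ≤ Jr q * (1 + ε) := by
    have h5 := Real.rpow_le_rpow hlq.le h2 (by positivity : 0 ≤ 1 / q)
    rw [Real.mul_rpow hJqq.le (by linarith : 0 ≤ 1 + ε), ← Real.rpow_mul hJq.le,
      mul_one_div_cancel (by linarith : q ≠ 0), Real.rpow_one] at h5
    refine h5.trans (mul_le_mul_of_nonneg_left ?_ hJq.le)
    have h6 : (1 + ε) ^ (1 / q) ≤ (1 + ε) ^ (1 : ℝ) := by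
      apply Real.rpow_le_rpow_of_exponent_le (by linarith)
      rw [div_le_one (by linarith)]
      exact hq.le
    rwa [Real.rpow_one] at h6
  have hlq' : 0 < lam q Ω ^ (1 / q) := Real.rpow_pos_of_pos hlq _
  have e3 : Jr p / (Jr q * (1 + ε)) ≤ rat p q Ω := by
    unfold rat
    exact div_le_div₀ (hJp.le.trans e1) e1 hlq' e2
  refine lt_of_lt_of_le ?_ e3
  have e4 : Jr p / (Jr q * (1 + ε)) = a / (1 + ε) := by
    rw [ha, div_div]
  rw [e4, lt_div_iff₀ (by linarith)]
  have e5 : a * ε = η / 2 := by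
    rw [hε]
    field_simp
  nlinarith

end Pool.Agent.R812.EV
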