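import Pool.Agent.R812.EV.Stm
import Pool.Agent.TH925.J53

/-!
# One-dimensional inequality with a free left end
-/

set_option autoImplicit false

open MeasureTheory Set Metric Filter Topology

namespace Pool.Agent.R812.EV

open Pool.Agent.TH925.J53 (den den_cont den_pos T T_zero T_mono T_lt T_al al al_deriv al_T
  abs_deriv_le young)

theorem Jr_eq_J53 (r : ℝ) : Pool.Agent.TH281.PC.Jr r = Pool.Agent.TH925.J53.Jr r := rfl

/-- the calibration argument on `[a, b]` -/
theorem mixed_core {r ρ a b : ℝ} (hr : 1 < r) (hρ : 0 < ρ) {u : ℝ → ℝ} (hu : ContDiff ℝ 1 u)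
    (ha0 : 0 ≤ a) (hab : a < b) (hbρ : b < ρ) (hub : u b = 0) :
    (Pool.Agent.TH925.J53.Jr r / ρ) ^ r * ∫ s in a..b, |u s| ^ r ≤
      ∫ s in a..b, |deriv u s| ^ r := by
  have hr0 : 0 < r := by linarith
  have hr1 : r - 1 ≠ 0 := by linarith
  have hr1' : 0 < r - 1 := by linarith
  have hJ := Pool.Agent.TH925.J53.Jr_pos hr
  set κ : ℝ := Pool.Agent.TH925.J53.Jr r / ρ with hκ
  have hκ0 : 0 < κ := by positivity
  have hκρ : κ * ρ = Pool.Agent.TH925.J53.Jr r := by rw [hκ]; field_simp
  have hI : ∀ s ∈ Icc a b, -Pool.Agent.TH925.J53.Jr r < κ * s ∧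
      κ * s < Pool.Agent.TH925.J53.Jr r := by
    intro s hs
    have h0 : 0 ≤ s := ha0.trans hs.1
    have h1 : 0 ≤ κ * s := mul_nonneg hκ0.le h0
    have h2 : κ * s < κ * ρ := mul_lt_mul_of_pos_left (hs.2.trans_lt hbρ) hκ0
    constructor <;> linarith
  set f : ℝ → ℝ := fun s => |u s| ^ r with hf
  have hfC : ContDiff ℝ 1 f := (contDiff_norm_rpow hr).comp hu
  have hfd : ∀ s, HasDerivAt f (deriv f s) s := fun s =>
    (hfC.differentiable one_ne_zero s).hasDerivAt
  have hfc : Continuous (deriv f) := hfC.continuous_deriv_one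
  set F : ℝ → ℝ := fun s => -(κ ^ (r - 1)) * al r (κ * s) with hF
  set F' : ℝ → ℝ := fun s => -(κ ^ (r - 1)) * (den r (al r (κ * s)) * κ) with hF'
  have hFd : ∀ s ∈ Icc a b, HasDerivAt F (F' s) s := by
    intro s hs
    have h1 := al_deriv hr (hI s hs).1 (hI s hs).2
    have h2 : HasDerivAt (fun s : ℝ => κ * s) κ s := by
      simpa using (hasDerivAt_id s).const_mul κ
    exact (h1.comp s h2).const_mul _
  have hFc : ContinuousOn F (Icc a b) := fun s hs => (hFd s hs).continuousAt.continuousWithinAt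
  have halc : ContinuousOn (fun s => al r (κ * s)) (Icc a b) := by
    intro s hs
    have h1 := (al_deriv hr (hI s hs).1 (hI s hs).2).continuousAt
    have h2 : ContinuousAt (fun s : ℝ => κ * s) s := by fun_prop
    exact (ContinuousAt.comp (f := fun s : ℝ => κ * s) h1 h2).continuousWithinAt
  have hF'c : ContinuousOn F' (Icc a b) :=
    continuousOn_const.mul (((den_cont hr).comp_continuousOn halc).mul continuousOn_const)
  have hGd : ∀ s ∈ uIcc a b, HasDerivAt (fun s => F s * f s) (F' s * f s + F s * deriv f s) s := by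
    intro s hs
    rw [uIcc_of_le hab.le] at hs
    exact (hFd s hs).mul (hfd s)
  have hG'c : ContinuousOn (fun s => F' s * f s + F s * deriv f s) (uIcc a b) := by
    rw [uIcc_of_le hab.le]
    exact (hF'c.mul hfC.continuous.continuousOn).add (hFc.mul hfc.continuousOn)
  have hint := intervalIntegral.integral_eq_sub_of_hasDerivAt hGd hG'c.intervalIntegrable
  have hfb : f b = 0 := by simp only [hf, hub, abs_zero]; exact Real.zero_rpow hr0.ne'
  have hala : 0 ≤ al r (κ * a) := by
    have h1 := hI a ⟨le_rfl, hab.le⟩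
    have h2 : T r (al r (κ * a)) = κ * a := T_al hr h1.1 h1.2
    have h3 : T r 0 ≤ T r (al r (κ * a)) := by
      rw [h2, T_zero]; exact mul_nonneg hκ0.le ha0
    exact (T_mono hr).le_iff_le.1 h3
  have hfa : 0 ≤ -(F a * f a) := by
    have h1 : 0 ≤ κ ^ (r - 1) := by positivity
    have h2 : 0 ≤ f a := by simp only [hf]; positivity
    have h3 : -(F a * f a) = κ ^ (r - 1) * al r (κ * a) * f a := by simp only [hF]; ring
    rw [h3]; positivity
  rw [hfb, mul_zero, zero_sub] at hint
  have hDc : Continuous fun s => |deriv u s| ^ r :=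
    hu.continuous_deriv_one.abs.rpow_const fun x => Or.inr hr0.le
  -- pointwise inequality
  have hpt : ∀ s ∈ Icc a b, κ ^ r * f s + (F' s * f s + F s * deriv f s) ≤ |deriv u s| ^ r := by
    intro s hs
    set A := |al r (κ * s)| with hA
    have hA0 : 0 ≤ A := abs_nonneg _
    have e1 : F s * deriv f s ≤ |F s| * (r * |u s| ^ (r - 1) * |deriv u s|) := by
      refine (le_abs_self _).trans ?_
      rw [abs_mul]
      exact mul_le_mul_of_nonneg_left (abs_deriv_le hr hu s) (abs_nonneg _)
    have e2 := young hr (X := |F s| * |u s| ^ (r - 1)) (Y := |deriv u s|) (by positivity)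
      (abs_nonneg _)
    have e3 : (|F s| * |u s| ^ (r - 1)) ^ (r / (r - 1)) = κ ^ r * A ^ (r / (r - 1)) * f s := by
      rw [Real.mul_rpow (abs_nonneg _) (by positivity), ← Real.rpow_mul (abs_nonneg _),
        mul_div_cancel₀ _ hr1]
      congr 1
      simp only [hF]
      rw [abs_mul, abs_neg, abs_of_pos (by positivity), Real.mul_rpow (by positivity)
        (abs_nonneg _), ← Real.rpow_mul hκ0.le, mul_div_cancel₀ _ hr1]
    have e4 : F' s = -(κ ^ r * (1 + (r - 1) * A ^ (r / (r - 1)))) := by
      simp only [hF', den]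
      have : κ ^ r = κ ^ (r - 1) * κ := by
        rw [← Real.rpow_add_one hκ0.ne']; congr 1; ring
      rw [this]; ring
    rw [e3] at e2
    rw [e4]
    have e5 : |F s| * (r * |u s| ^ (r - 1) * |deriv u s|) =
        r * (|F s| * |u s| ^ (r - 1) * |deriv u s|) := by ring
    rw [e5] at e1
    nlinarith
  have hkc : Continuous fun s => κ ^ r * f s := continuous_const.mul hfC.continuous
  have hkf : IntervalIntegrable (fun s => κ ^ r * f s) volume a b := hkc.intervalIntegrable _ _
  have hmono : ∫ s in a..b, (κ ^ r * f s + (F' s * f s + F s * deriv f s)) ≤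
      ∫ s in a..b, |deriv u s| ^ r := by
    refine intervalIntegral.integral_mono_on hab.le ?_ (hDc.intervalIntegrable _ _) hpt
    exact hkf.add hG'c.intervalIntegrable
  rw [intervalIntegral.integral_add hkf
    hG'c.intervalIntegrable, hint, intervalIntegral.integral_const_mul] at hmono
  linarith

theorem piece_mixed : S_mixed := by
  intro r ρ hr hρ v hv hc hs S hS0 hSup
  have hr0 : 0 < r := by linarith
  show (Pool.Agent.TH925.J53.Jr r / ρ) ^ r * ∫ s in S, |v s| ^ r ≤ ∫ s in S, ‖fderiv ℝ v s‖ ^ r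
  rcases S.eq_empty_or_nonempty with he | hne
  · subst he; simp
  have hbdd : BddBelow S := ⟨0, fun x hx => hS0 hx⟩
  set a := sInf S with ha
  have ha0 : 0 ≤ a := le_csInf hne (fun x hx => hS0 hx)
  have hS1 : Ioi a ⊆ S := by
    intro x hx
    obtain ⟨s, hs, hsx⟩ := exists_lt_of_csInf_lt hne hx
    exact hSup s hs x hsx.le
  have hS2 : S ⊆ Ici a := fun x hx => csInf_le hbdd hx
  have hSae : S =ᵐ[volume] Ioi a := by
    refine Filter.EventuallyLE.antisymm ?_ hS1.eventuallyLE
    exact (HasSubset.Subset.eventuallyLE hS2).trans Ioi_ae_eq_Ici.symm.le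
  rw [setIntegral_congr_set hSae, setIntegral_congr_set hSae]
  -- a bound of the support
  have hb : ∃ b, b < ρ ∧ ∀ x ∈ tsupport v, x < b := by
    rcases (tsupport v).eq_empty_or_nonempty with he | hne'
    · exact ⟨ρ - 1, by linarith, by rw [he]; intro x hx; exact absurd hx (notMem_empty x)⟩
    · obtain ⟨m, hm, hmax⟩ := hc.isCompact.exists_isGreatest hne'
      have h1 : m < ρ := hs hm
      exact ⟨(m + ρ) / 2, by linarith, fun x hx => by have := hmax hx; linarith⟩
  obtain ⟨b, hbρ, hbs⟩ := hb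
  have hv0 : ∀ s, b ≤ s → v s = 0 := fun s hs' =>
    image_eq_zero_of_notMem_tsupport fun h => absurd (hbs s h) (not_lt.2 hs')
  have hd0 : ∀ s, b ≤ s → deriv v s = 0 := fun s hs' => by
    by_contra hne'
    exact absurd (hbs s (support_deriv_subset hne')) (not_lt.2 hs')
  have hnorm : ∀ s, ‖fderiv ℝ v s‖ ^ r = |deriv v s| ^ r := fun s => by
    rw [← norm_deriv_eq_norm_fderiv, Real.norm_eq_abs]
  simp only [hnorm]
  rcases le_or_gt b a with hba | hab
  · have h1 : ∫ s in Ioi a, |v s| ^ r = 0 := by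
      refine setIntegral_eq_zero_of_forall_eq_zero fun s hs' => ?_
      rw [hv0 s (hba.trans (le_of_lt hs')), abs_zero]
      exact Real.zero_rpow hr0.ne'
    rw [h1, mul_zero]
    exact integral_nonneg fun s => by positivity
  · have h1 : ∀ g : ℝ → ℝ, (∀ s, b ≤ s → g s = 0) →
        ∫ s in Ioi a, g s = ∫ s in a..b, g s := by
      intro g hg
      rw [intervalIntegral.integral_of_le hab.le]
      refine setIntegral_eq_of_subset_of_forall_diff_eq_zero measurableSet_Ioi
        Ioc_subset_Ioi_self fun s hs' => hg s ?_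
      by_contra hcon
      exact hs'.2 ⟨hs'.1, (not_le.1 hcon).le⟩
    rw [h1 (fun s => |v s| ^ r) (fun s hs' => by
        simp only [hv0 s hs', abs_zero]; exact Real.zero_rpow hr0.ne'),
      h1 (fun s => |deriv v s| ^ r) (fun s hs' => by
        simp only [hd0 s hs', abs_zero]; exact Real.zero_rpow hr0.ne')]
    exact mixed_core hr hρ hv ha0 hab hbρ (hv0 b le_rfl)

end Pool.Agent.R812.EV
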