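import Pool.Agent.R812.EV.Stm

/-!
# Normalisation by scaling and translation
-/

open MeasureTheory Set Metric Filter Topology
open scoped InnerProductSpace

namespace Pool.Agent.R812.EV

open Pool.Agent.TH281.PC (lam lamSet Jr)

theorem nrm_eq_image (Ω : Set E2) (c : E2) (ρ : ℝ) (hρ : 0 < ρ) :
    nrm Ω c ρ = (fun x => ρ⁻¹ • x + (-(ρ⁻¹ • c))) '' Ω := by
  ext x
  simp only [nrm, mem_ofPred_eq, mem_image]
  constructor
  · intro h
    refine ⟨c + ρ • x, h, ?_⟩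
    rw [smul_add, smul_smul, inv_mul_cancel₀ hρ.ne', one_smul]
    abel
  · rintro ⟨y, hy, rfl⟩
    have : c + ρ • (ρ⁻¹ • y + -(ρ⁻¹ • c)) = y := by
      rw [smul_add, smul_neg, smul_smul, smul_smul, mul_inv_cancel₀ hρ.ne', one_smul, one_smul]
      abel
    rw [this]
    exact hy

theorem adm_nrm (Ω : Set E2) (c : E2) (ρ : ℝ) (hρ : 0 < ρ) (hΩ : Adm Ω) : Adm (nrm Ω c ρ) := by
  obtain ⟨hne, hb, ho, hc⟩ := hΩ
  refine ⟨?_, ?_, ?_, ?_⟩
  · rw [nrm_eq_image Ω c ρ hρ]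
    exact hne.image _
  · obtain ⟨R, hR⟩ := hb.exists_norm_le
    rw [isBounded_iff_forall_norm_le]
    refine ⟨ρ⁻¹ * (R + ‖c‖), fun x hx => ?_⟩
    have h1 := hR _ hx
    have h2 : ‖ρ • x‖ ≤ R + ‖c‖ := by
      have h3 : ρ • x = (c + ρ • x) - c := by abel
      rw [h3]
      exact (norm_sub_le _ _).trans (by linarith)
    rw [norm_smul, Real.norm_eq_abs, abs_of_pos hρ] at h2
    rw [← div_eq_inv_mul, le_div_iff₀ hρ]
    linarith
  · have : Continuous (fun x : E2 => c + ρ • x) := by fun_prop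
    exact ho.preimage this
  · intro x hx y hy a b ha hb' hab
    simp only [nrm, mem_ofPred_eq] at hx hy ⊢
    have : c + ρ • (a • x + b • y) = a • (c + ρ • x) + b • (c + ρ • y) := by
      have h1 : c = a • c + b • c := by rw [← add_smul, hab, one_smul]
      calc c + ρ • (a • x + b • y) = (a • c + b • c) + ρ • (a • x + b • y) := by rw [← h1]
        _ = a • (c + ρ • x) + b • (c + ρ • y) := by
          simp only [smul_add, smul_smul, mul_comm ρ]
          abel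
    rw [this]
    exact hc hx hy ha hb' hab

theorem lam_nrm (h1 : H_scale) (Ω : Set E2) (c : E2) (ρ : ℝ) (hρ : 0 < ρ) (hΩ : Adm Ω) (r : ℝ) :
    lam r (nrm Ω c ρ) = ρ ^ r * lam r Ω := by
  have h2 := h1 r ρ⁻¹ (-(ρ⁻¹ • c)) Ω (inv_pos.mpr hρ) hΩ.2.2.1 hΩ.1
  rw [← nrm_eq_image Ω c ρ hρ] at h2
  rw [h2, ← mul_assoc, ← Real.mul_rpow hρ.le (inv_pos.mpr hρ).le, mul_inv_cancel₀ hρ.ne',
    Real.one_rpow, one_mul]

theorem piece_norm (h1 : H_scale) (hJ : H_J) : S_norm := by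
  intro Ω c ρ hΩ hH
  obtain ⟨hρ, hball, hlam⟩ := hH
  refine ⟨adm_nrm Ω c ρ hρ hΩ, ⟨one_pos, ?_, ?_⟩, ?_⟩
  · intro x hx
    rw [mem_ball_zero_iff] at hx
    apply hball
    rw [mem_ball, dist_eq_norm, add_sub_cancel_left, norm_smul, Real.norm_eq_abs, abs_of_pos hρ]
    nlinarith
  · intro r hr
    have hJr := hJ r hr
    rw [lam_nrm h1 Ω c ρ hρ hΩ r, div_one]
    have h2 := hlam r hr
    have h3 : ρ ^ r * (Jr r / ρ) ^ r = Jr r ^ r := by
      rw [← Real.mul_rpow hρ.le (div_pos hJr hρ).le, mul_div_cancel₀ _ hρ.ne']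
    rw [← h3]
    exact mul_le_mul_of_nonneg_left h2 (Real.rpow_nonneg hρ.le r)
  · intro p q hp hq
    have key : ∀ r : ℝ, 1 < r → lam r (nrm Ω c ρ) ^ (1 / r) = ρ * lam r Ω ^ (1 / r) := by
      intro r hr
      have hJr := hJ r hr
      have h2 : 0 ≤ lam r Ω := (Real.rpow_nonneg (div_pos hJr hρ).le r).trans (hlam r hr)
      rw [lam_nrm h1 Ω c ρ hρ hΩ r, Real.mul_rpow (Real.rpow_nonneg hρ.le r) h2,
        ← Real.rpow_mul hρ.le, mul_one_div_cancel (by linarith : r ≠ 0), Real.rpow_one]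
    unfold rat
    rw [key p hp, key q hq, mul_div_mul_left _ _ hρ.ne']

end Pool.Agent.R812.EV
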