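import Pool.Agent.R812.EV.Stm

/-!
# Long convex sets contain long rectangles of almost full width
-/

open MeasureTheory Set Metric Filter Topology
open scoped InnerProductSpace

namespace Pool.Agent.R812.EV

open Pool.Agent.TH281.PC (lam lamSet Jr)

theorem rect_delta (q ε : ℝ) (hε : 0 < ε) :
    ∃ δ : ℝ, 0 < δ ∧ δ < 1 / 2 ∧ (1 - δ) ^ (-q) * (1 + δ) ≤ 1 + ε := by
  have hc : ContinuousAt (fun δ : ℝ => (1 - δ) ^ (-q) * (1 + δ)) 0 := by
    apply ContinuousAt.mul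
    · apply ContinuousAt.rpow_const
      · fun_prop
      · left; norm_num
    · fun_prop
  have h0 : (fun δ : ℝ => (1 - δ) ^ (-q) * (1 + δ)) 0 < 1 + ε := by
    simp only [sub_zero, Real.one_rpow, add_zero, mul_one]
    linarith
  have h1 : ∀ᶠ δ in 𝓝 (0 : ℝ), (1 - δ) ^ (-q) * (1 + δ) < 1 + ε := hc.eventually_lt_const h0
  have h2 : ∀ᶠ δ in 𝓝[>] (0 : ℝ), (1 - δ) ^ (-q) * (1 + δ) < 1 + ε :=
    h1.filter_mono nhdsWithin_le_nhds
  have h3 : ∀ᶠ δ in 𝓝[>] (0 : ℝ), δ ∈ Ioo (0 : ℝ) (1 / 2) := Ioo_mem_nhdsGT (by norm_num)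
  obtain ⟨δ, hδ1, hδ2⟩ := (h2.and h3).exists
  exact ⟨δ, hδ2.1, hδ2.2, hδ1.le⟩

/-- the box of `H_box` -/
def Bx (L : ℝ) : Set E2 := {x : E2 | 0 < x 0 ∧ x 0 < 1 ∧ |x 1| < L}

theorem Bx_open (L : ℝ) : IsOpen (Bx L) := by
  have c0 : Continuous fun x : E2 => x 0 := by fun_prop
  have c1 : Continuous fun x : E2 => x 1 := by fun_prop
  exact (isOpen_lt continuous_const c0).inter
    ((isOpen_lt c0 continuous_const).inter (isOpen_lt c1.abs continuous_const))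

theorem Bx_nonempty (L : ℝ) (hL : 0 < L) : (Bx L).Nonempty := by
  refine ⟨EuclideanSpace.single 0 (1 / 2 : ℝ), ?_⟩
  refine ⟨by simp, by simp; norm_num, by simpa using hL⟩

theorem piece_rect (h1 : H_scale) (h2 : H_mono) (h3 : H_box) (h4 : S_iso) (hJ : H_J) :
    S_rect := by
  intro q ε hq hε
  have hJ0 : 0 < Jr q := hJ q hq
  obtain ⟨δ, hδ0, hδ2, hδ⟩ := rect_delta q ε hε
  have hP : 0 < (2 * Jr q) ^ q := by positivity
  obtain ⟨L, hL, hbox⟩ := h3 q ((2 * Jr q) ^ q * δ) hq (by positivity)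
  have hLd : 0 < 4 * L / δ := by positivity
  refine ⟨1 + 4 * L / δ, by linarith, ?_⟩
  rintro Ω ⟨hne, hbd, hop, hcv⟩ hball ⟨x, hx, hxA⟩
  have hl : 0 < ‖x‖ := by linarith
  have hdl : 4 * L ≤ δ * ‖x‖ := by
    have : δ * (1 + 4 * L / δ) ≤ δ * ‖x‖ := mul_le_mul_of_nonneg_left hxA hδ0.le
    have h' : δ * (1 + 4 * L / δ) = δ + 4 * L := by field_simp
    linarith
  set e : E2 := ‖x‖⁻¹ • x with he
  have hen : ‖e‖ = 1 := by
    rw [he, norm_smul, norm_inv, norm_norm, inv_mul_cancel₀ hl.ne']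
  have hxe : x = ‖x‖ • e := by
    rw [he, smul_smul, mul_inv_cancel₀ hl.ne', one_smul]
  set i1 : E2 := EuclideanSpace.single 1 (1 : ℝ) with hi1
  set i0 : E2 := EuclideanSpace.single 0 (1 : ℝ) with hi0
  have hn1 : ‖i1‖ = 1 := by simp [hi1]
  have hn0 : ‖i0‖ = 1 := by simp [hi0]
  obtain ⟨R, hR⟩ : ∃ R : E2 ≃ₗᵢ[ℝ] E2, R i1 = e :=
    ⟨(ℝ ∙ (i1 - e))ᗮ.reflection, Submodule.reflection_sub (by rw [hn1, hen])⟩
  set f : E2 := R i0 with hf
  have hfn : ‖f‖ = 1 := by rw [hf, LinearIsometryEquiv.norm_map, hn0]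
  set w : ℝ := 2 * (1 - δ) with hw
  have hw0 : 0 < w := by rw [hw]; linarith
  have hw2 : w < 2 := by rw [hw]; linarith
  set v : E2 := (-(1 - δ)) • f + (w * L) • e with hv
  have hopR : IsOpen (R '' Bx L) := R.toHomeomorph.isOpenMap _ (Bx_open L)
  have hneR : (R '' Bx L).Nonempty := (Bx_nonempty L hL).image _
  have hopI : IsOpen ((fun z : E2 => w • z + v) '' (R '' Bx L)) := by
    exact ((Homeomorph.smulOfNeZero w hw0.ne').trans (Homeomorph.addRight v)).isOpenMap _ hopR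
  have hneI : ((fun z : E2 => w • z + v) '' (R '' Bx L)).Nonempty := hneR.image _
  have hsub : ((fun z : E2 => w • z + v) '' (R '' Bx L)) ⊆ Ω := by
    rintro _ ⟨_, ⟨b, ⟨hb1, hb2, hb3⟩, rfl⟩, rfl⟩
    have hbd : b = b 0 • i0 + b 1 • i1 := by
      ext i
      fin_cases i <;> simp [hi0, hi1]
    have hRb : R b = b 0 • f + b 1 • e := by
      conv_lhs => rw [hbd]
      rw [map_add, map_smul, map_smul, hR]
    set h : ℝ := w * b 0 - (1 - δ) with hh
    set s : ℝ := w * b 1 + w * L with hs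
    have hy : w • R b + v = h • f + s • e := by
      rw [hRb, hv, hh, hs]
      module
    have hb3' := abs_lt.mp hb3
    have hha : |h| < 1 - δ := by
      rw [abs_lt, hh, hw]
      constructor <;> nlinarith
    have hs0 : 0 ≤ s := by
      rw [hs]; nlinarith
    have hs1 : s ≤ δ * ‖x‖ := by
      rw [hs]; nlinarith
    set τ : ℝ := s / ‖x‖ with hτ
    have hτ0 : 0 ≤ τ := div_nonneg hs0 hl.le
    have hτ1 : τ ≤ δ := by rw [hτ, div_le_iff₀ hl]; exact hs1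
    have h1τ : 0 < 1 - τ := by linarith
    have hz : (h / (1 - τ)) • f ∈ Ω := by
      apply hball
      rw [mem_ball_zero_iff, norm_smul, hfn, mul_one, Real.norm_eq_abs, abs_div, abs_of_pos h1τ,
        div_lt_one h1τ]
      linarith
    have hc := hcv hz hx h1τ.le hτ0 (by ring)
    have hcc : (1 - τ) • (h / (1 - τ)) • f + τ • x = h • f + s • e := by
      rw [smul_smul, mul_div_cancel₀ _ h1τ.ne', hτ]
      conv_lhs => rw [hxe]
      rw [smul_smul]
      congr 2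
      have : ‖‖x‖ • e‖ = ‖x‖ := by rw [← hxe]
      rw [this]
      field_simp
    rw [hcc] at hc
    show w • R b + v ∈ Ω
    rw [hy]
    exact hc
  have k1 : lam q Ω ≤ lam q ((fun z : E2 => w • z + v) '' (R '' Bx L)) :=
    h2 q _ Ω hsub hopI hneI
  have k2 := h1 q w v (R '' Bx L) hw0 hopR hneR
  rw [h4 q R (Bx L)] at k2
  have k3 : lam q (Bx L) ≤ (2 * Jr q) ^ q + (2 * Jr q) ^ q * δ := hbox
  have hwq : 0 < w ^ q := by positivity
  have k4 : lam q ((fun z : E2 => w • z + v) '' (R '' Bx L)) ≤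
      ((2 * Jr q) ^ q + (2 * Jr q) ^ q * δ) / w ^ q := by
    rw [le_div_iff₀ hwq, mul_comm, ← k2]
    exact k3
  refine k1.trans (k4.trans ?_)
  have e1 : (2 * Jr q) ^ q = 2 ^ q * Jr q ^ q := Real.mul_rpow (by norm_num) hJ0.le
  have e2 : w ^ q = 2 ^ q * (1 - δ) ^ q := Real.mul_rpow (by norm_num) (by linarith)
  have h2q : (0 : ℝ) < 2 ^ q := by positivity
  have hdq : 0 < (1 - δ) ^ q := Real.rpow_pos_of_pos (by linarith) _
  have e3 : (1 - δ) ^ (-q) = ((1 - δ) ^ q)⁻¹ := Real.rpow_neg (by linarith) _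
  have hJq : 0 < Jr q ^ q := by positivity
  rw [e1, e2]
  rw [e3] at hδ
  have : (2 ^ q * Jr q ^ q + 2 ^ q * Jr q ^ q * δ) / (2 ^ q * (1 - δ) ^ q) =
      Jr q ^ q * (((1 - δ) ^ q)⁻¹ * (1 + δ)) := by
    field_simp
  rw [this]
  exact mul_le_mul_of_nonneg_left hδ hJq.le

end Pool.Agent.R812.EV
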