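import Pool.Agent.R812.EV.Stm
import Pool.Agent.TH925.J54

set_option autoImplicit false

open MeasureTheory Set Metric Filter Topology
open scoped InnerProductSpace

namespace Pool.Agent.R812.EV

open Pool.Agent.TH281.PC (lam lamSet Jr)

namespace Slice

open Pool.Agent.TH925.J54

lemma slice0 {d : ℕ} (h : S_mixed) {r ρ : ℝ} (hr : 1 < r) (hρ : 0 < ρ)
    {u : EuclideanSpace ℝ (Fin (d + 1)) → ℝ} (hu : ContDiff ℝ 1 u) (hc : HasCompactSupport u)
    (hs : ∀ x ∈ tsupport u, x 0 < ρ) {D : Set (EuclideanSpace ℝ (Fin (d + 1)))}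
    (hD : MeasurableSet D) (h0 : ∀ x ∈ D, 0 ≤ x 0)
    (hup : ∀ x ∈ D, ∀ t : ℝ, 0 ≤ t → x + t • EuclideanSpace.single 0 (1 : ℝ) ∈ D) :
    (Jr r / ρ) ^ r * ∫ x in D, |u x| ^ r ≤ ∫ x in D, ‖fderiv ℝ u x‖ ^ r := by
  have hp0 : 0 < r := zero_lt_one.trans hr
  -- derivatives of slices
  have hslice : ∀ y : EuclideanSpace ℝ (Fin d), ContDiff ℝ 1 (fun s : ℝ => u (cn d (s, y))) := by
    intro y
    exact hu.comp ((cnL d).contDiff.comp (contDiff_id.prodMk contDiff_const))
  have hder : ∀ (y : EuclideanSpace ℝ (Fin d)) (s : ℝ),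
      ‖fderiv ℝ (fun s : ℝ => u (cn d (s, y))) s‖ ≤ ‖fderiv ℝ u (cn d (s, y))‖ := by
    intro y s
    have h1 : HasFDerivAt u (fderiv ℝ u (cn d (s, y))) (cn d (s, y)) :=
      (hu.differentiable one_ne_zero _).hasFDerivAt
    have h2 : HasFDerivAt (fun s : ℝ => cn d (s, y))
        ((cnL d).comp (ContinuousLinearMap.inl ℝ ℝ (EuclideanSpace ℝ (Fin d)))) s := by
      have h3 : HasFDerivAt (fun s : ℝ => (s, y))
          (ContinuousLinearMap.inl ℝ ℝ (EuclideanSpace ℝ (Fin d))) s := hasFDerivAt_prodMk_left s y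
      exact (cnL d).hasFDerivAt.comp s h3
    have h4 := (h1.comp s h2).fderiv
    have h5 : fderiv ℝ (fun s : ℝ => u (cn d (s, y))) s = (fderiv ℝ u (cn d (s, y))).comp
        ((cnL d).comp (ContinuousLinearMap.inl ℝ ℝ (EuclideanSpace ℝ (Fin d)))) := h4
    rw [h5]
    refine (ContinuousLinearMap.opNorm_comp_le _ _).trans ?_
    exact mul_le_of_le_one_right (norm_nonneg _) norm_inl
  have hcs : ∀ y : EuclideanSpace ℝ (Fin d), Continuous fun s : ℝ => cn d (s, y) := by
    intro y
    have h3 : Continuous fun s : ℝ => cnL d (s, y) := by fun_prop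
    exact h3
  have hsupp : ∀ y : EuclideanSpace ℝ (Fin d),
      tsupport (fun s : ℝ => u (cn d (s, y))) ⊆ {s | cn d (s, y) ∈ tsupport u} := by
    intro y
    refine closure_minimal ?_ ((isClosed_tsupport u).preimage (hcs y))
    intro s hs
    exact subset_tsupport u hs
  have hsub : ∀ y : EuclideanSpace ℝ (Fin d),
      tsupport (fun s : ℝ => u (cn d (s, y))) ⊆ Iio ρ := by
    intro y s hs'
    exact hs _ (hsupp y hs')
  obtain ⟨M, hM⟩ : ∃ M : ℝ, ∀ x ∈ tsupport u, ‖x‖ ≤ M :=
    isBounded_iff_forall_norm_le.1 (show IsCompact (tsupport u) from hc).isBounded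
  have hMs : ∀ (y : EuclideanSpace ℝ (Fin d)) (s : ℝ), cn d (s, y) ∈ tsupport u →
      s ∈ Icc (-M) M := by
    intro y s hsy
    have h1 := hM _ hsy
    have h2 := norm_cn_sq (d := d) (s, y)
    simp only at h2
    have h3 : s ^ 2 ≤ ‖cn d (s, y)‖ ^ 2 := by nlinarith [sq_nonneg ‖y‖]
    have h4 := abs_le_of_sq_le_sq' h3 (norm_nonneg _)
    exact ⟨by linarith [h4.1], by linarith [h4.2]⟩
  have hcomp : ∀ y : EuclideanSpace ℝ (Fin d),
      HasCompactSupport (fun s : ℝ => u (cn d (s, y))) := by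
    intro y
    exact isCompact_Icc.of_isClosed_subset (isClosed_tsupport _)
      (fun s hs' => hMs y s (hsupp y hs'))
  -- the two integrals
  have hcU : Continuous fun x => |u x| ^ r := hu.continuous.abs.rpow_const fun x => Or.inr hp0.le
  have hfc : Continuous (fderiv ℝ u) := hu.continuous_fderiv one_ne_zero
  have hcD : Continuous fun x => ‖fderiv ℝ u x‖ ^ r := hfc.norm.rpow_const fun x => Or.inr hp0.le
  have hiU : Integrable fun x => |u x| ^ r :=
    hcU.integrable_of_hasCompactSupport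
      (hc.comp_left (g := fun t : ℝ => |t| ^ r) (by simp [Real.zero_rpow hp0.ne']))
  have hiD : Integrable fun x => ‖fderiv ℝ u x‖ ^ r :=
    hcD.integrable_of_hasCompactSupport
      ((hc.fderiv ℝ).comp_left (g := fun t => ‖t‖ ^ r) (by simp [Real.zero_rpow hp0.ne']))
  have hiU' := hiU.indicator hD
  have hiD' := hiD.indicator hD
  have e1 : ∫ x in D, |u x| ^ r =
      ∫ y, ∫ s, D.indicator (fun x => |u x| ^ r) (cn d (s, y)) := by
    rw [← integral_indicator hD,
      ← (cn_mp d).integral_comp' (g := D.indicator (fun x => |u x| ^ r))]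
    exact integral_prod_symm _ (((cn_mp d).integrable_comp_emb (cn d).measurableEmbedding).2 hiU')
  have e2 : ∫ x in D, ‖fderiv ℝ u x‖ ^ r =
      ∫ y, ∫ s, D.indicator (fun x => ‖fderiv ℝ u x‖ ^ r) (cn d (s, y)) := by
    rw [← integral_indicator hD,
      ← (cn_mp d).integral_comp' (g := D.indicator (fun x => ‖fderiv ℝ u x‖ ^ r))]
    exact integral_prod_symm _ (((cn_mp d).integrable_comp_emb (cn d).measurableEmbedding).2 hiD')
  have i1 : Integrable (fun y => ∫ s, D.indicator (fun x => |u x| ^ r) (cn d (s, y))) :=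
    (((cn_mp d).integrable_comp_emb (cn d).measurableEmbedding).2 hiU').integral_prod_right
  have i2 : Integrable (fun y => ∫ s, D.indicator (fun x => ‖fderiv ℝ u x‖ ^ r)
      (cn d (s, y))) :=
    (((cn_mp d).integrable_comp_emb (cn d).measurableEmbedding).2 hiD').integral_prod_right
  rw [e1, e2, ← integral_const_mul]
  refine integral_mono (i1.const_mul _) i2 fun y => ?_
  have hS : MeasurableSet {s : ℝ | cn d (s, y) ∈ D} := (hcs y).measurable hD
  have f1 : ∫ s, D.indicator (fun x => |u x| ^ r) (cn d (s, y)) =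
      ∫ s in {s : ℝ | cn d (s, y) ∈ D}, |u (cn d (s, y))| ^ r := by
    rw [← integral_indicator hS]
    rfl
  have f2 : ∫ s, D.indicator (fun x => ‖fderiv ℝ u x‖ ^ r) (cn d (s, y)) =
      ∫ s in {s : ℝ | cn d (s, y) ∈ D}, ‖fderiv ℝ u (cn d (s, y))‖ ^ r := by
    rw [← integral_indicator hS]
    rfl
  show (Jr r / ρ) ^ r * ∫ s, D.indicator (fun x => |u x| ^ r) (cn d (s, y)) ≤
    ∫ s, D.indicator (fun x => ‖fderiv ℝ u x‖ ^ r) (cn d (s, y))
  rw [f1, f2]
  have h1 := h r ρ hr hρ (fun s => u (cn d (s, y))) (hslice y) (hcomp y) (hsub y)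
    {s : ℝ | cn d (s, y) ∈ D} (fun s hs' => by
      have := h0 _ hs'
      rwa [cn_zero] at this) (fun s hs' t hst => by
      have h2 := hup _ hs' (t - s) (sub_nonneg.2 hst)
      have h3 : cn d (s, y) + (t - s) • EuclideanSpace.single 0 (1 : ℝ) = cn d (t, y) := by
        ext i
        refine Fin.cases ?_ (fun j => ?_) i
        · simp [cn_zero]
        · simp [cn_succ]
      rw [h3] at h2
      exact h2)
  refine h1.trans ?_
  refine integral_mono_of_nonneg (Eventually.of_forall fun s => by positivity) ?_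
    (Eventually.of_forall fun s => Real.rpow_le_rpow (norm_nonneg _) (hder y s) hp0.le)
  refine Integrable.integrableOn ?_
  refine (hcD.comp (hcs y)).integrable_of_hasCompactSupport ?_
  refine (isCompact_Icc (a := -M) (b := M)).of_isClosed_subset (isClosed_tsupport _) ?_
  refine closure_minimal ?_ isClosed_Icc
  intro s hs'
  have h2 : cn d (s, y) ∈ tsupport u := by
    by_contra hcon
    apply hs'
    have h3 : fderiv ℝ u (cn d (s, y)) = 0 := by
      by_contra hne
      exact hcon (support_fderiv_subset ℝ hne)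
    simp only [Function.comp_apply, h3, norm_zero]
    exact Real.zero_rpow hp0.ne'
  exact hMs y s h2

end Slice

theorem piece_slice (h : S_mixed) : S_slice := by
  intro r ρ hr hρ ν hν u hu hc hs C hC h0 hup
  set e0 : E2 := EuclideanSpace.single 0 (1 : ℝ) with he0
  have hn0 : ‖e0‖ = 1 := by simp [he0]
  set R : E2 ≃ₗᵢ[ℝ] E2 := (Submodule.span ℝ {e0 - ν})ᗮ.reflection with hR
  have hRe : R e0 = ν := Submodule.reflection_sub (by rw [hn0, hν])
  have hmp : MeasurePreserving (⇑R) volume volume := R.measurePreserving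
  have hemb : MeasurableEmbedding (⇑R) := R.toHomeomorph.measurableEmbedding
  have hin : ∀ x : E2, ⟪R x, ν⟫_ℝ = x 0 := by
    intro x
    rw [← hRe, R.inner_map_map, he0, EuclideanSpace.inner_single_right]
    simp
  have hw : ContDiff ℝ 1 (fun x => u (R x)) := hu.comp R.contDiff
  have hwc : HasCompactSupport (fun x => u (R x)) := hc.comp_homeomorph R.toHomeomorph
  have hws : ∀ x ∈ tsupport (fun x => u (R x)), x 0 < ρ := by
    intro x hx
    have h1 : tsupport (fun x => u (R x)) ⊆ R ⁻¹' tsupport u :=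
      closure_minimal (fun y hy => subset_tsupport u hy)
        ((isClosed_tsupport u).preimage R.continuous)
    have h2 := hs _ (h1 hx)
    rwa [hin] at h2
  have hD : MeasurableSet (R ⁻¹' C) := R.continuous.measurable hC
  have key := Slice.slice0 (d := 1) h hr hρ (u := fun x => u (R x)) hw hwc hws (D := R ⁻¹' C) hD
    (fun x hx => by
      have := h0 _ hx
      rwa [hin] at this)
    (fun x hx t ht => by
      have h2 := hup _ hx t ht
      show R (x + t • e0) ∈ C
      rw [map_add, map_smul, hRe]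
      exact h2)
  have hfd : ∀ x, ‖fderiv ℝ (fun x => u (R x)) x‖ = ‖fderiv ℝ u (R x)‖ := by
    intro x
    have h1 : HasFDerivAt u (fderiv ℝ u (R x)) (R x) :=
      (hu.differentiable one_ne_zero _).hasFDerivAt
    have h2 : HasFDerivAt (fun x => R x) (R.toContinuousLinearEquiv : E2 →L[ℝ] E2) x :=
      R.toContinuousLinearEquiv.hasFDerivAt
    have h3 := (h1.comp x h2).fderiv
    have h4 : fderiv ℝ (fun x => u (R x)) x =
      (fderiv ℝ u (R x)).comp (R.toContinuousLinearEquiv : E2 →L[ℝ] E2) := h3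
    rw [h4]
    exact ContinuousLinearMap.opNorm_comp_linearIsometryEquiv (fderiv ℝ u (R x)) R
  have k1 : ∫ x in R ⁻¹' C, |u (R x)| ^ r = ∫ x in C, |u x| ^ r :=
    hmp.setIntegral_preimage_emb hemb (fun x => |u x| ^ r) C
  have k2 : ∫ x in R ⁻¹' C, ‖fderiv ℝ u (R x)‖ ^ r = ∫ x in C, ‖fderiv ℝ u x‖ ^ r :=
    hmp.setIntegral_preimage_emb hemb (fun x => ‖fderiv ℝ u x‖ ^ r) C
  simp only [hfd] at key
  rw [← k1, ← k2]
  exact key

end Pool.Agent.R812.EV
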