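import Pool.Agent.TH281.PC.Defs

/-!
# Ratios of principal eigenvalues of p-Laplacians on planar convex sets: the pieces
-/

open MeasureTheory Set Metric Filter Topology
open scoped InnerProductSpace

namespace Pool.Agent.R812.EV

open Pool.Agent.TH281.PC (lam lamSet Jr)

/-- the plane -/
abbrev E2 := EuclideanSpace ℝ (Fin 2)

/-- nonempty bounded open convex subsets of the plane -/
def Adm (Ω : Set E2) : Prop := Ω.Nonempty ∧ Bornology.IsBounded Ω ∧ IsOpen Ω ∧ Convex ℝ Ω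

/-- `λ_p(Ω)^{1/p} / λ_q(Ω)^{1/q}` -/
noncomputable def rat (p q : ℝ) (Ω : Set E2) : ℝ := lam p Ω ^ (1 / p) / lam q Ω ^ (1 / q)

/-! Facts already proved in the library (used as hypotheses, discharged in the assembly). -/

/-- scaling and translation of `lam` -/
def H_scale : Prop := ∀ (r c : ℝ) (v : E2) (Ω : Set E2), 0 < c → IsOpen Ω → Ω.Nonempty →
  lam r Ω = c ^ r * lam r ((fun x => c • x + v) '' Ω)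

/-- monotonicity of `lam` -/
def H_mono : Prop := ∀ (r : ℝ) (Ω Ω' : Set E2), Ω ⊆ Ω' → IsOpen Ω → Ω.Nonempty →
  lam r Ω' ≤ lam r Ω

/-- thin rectangles -/
def H_box : Prop := ∀ q ε : ℝ, 1 < q → 0 < ε → ∃ L : ℝ, 0 < L ∧
  lam q {x : E2 | 0 < x 0 ∧ x 0 < 1 ∧ |x 1| < L} ≤ (2 * Jr q) ^ q + ε

/-- positivity of `lam` -/
def H_pos : Prop := ∀ (r : ℝ) (Ω : Set E2), 1 < r → Adm Ω → 0 < lam r Ω

/-- positivity of `Jr` -/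
def H_J : Prop := ∀ r : ℝ, 1 < r → 0 < Jr r

/-! The pieces -/

/-- one-dimensional inequality with a free left end -/
def S_mixed : Prop := ∀ r ρ : ℝ, 1 < r → 0 < ρ → ∀ v : ℝ → ℝ, ContDiff ℝ 1 v →
  HasCompactSupport v → tsupport v ⊆ Iio ρ → ∀ S : Set ℝ, S ⊆ Ici 0 →
  (∀ s ∈ S, ∀ t, s ≤ t → t ∈ S) →
  (Jr r / ρ) ^ r * ∫ s in S, |v s| ^ r ≤ ∫ s in S, ‖fderiv ℝ v s‖ ^ r

/-- the same on cells of the plane, sliced in the direction `ν` -/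
def S_slice : Prop := ∀ r ρ : ℝ, 1 < r → 0 < ρ → ∀ ν : E2, ‖ν‖ = 1 → ∀ u : E2 → ℝ,
  ContDiff ℝ 1 u → HasCompactSupport u → (∀ x ∈ tsupport u, ⟪x, ν⟫_ℝ < ρ) →
  ∀ C : Set E2, MeasurableSet C → (∀ x ∈ C, 0 ≤ ⟪x, ν⟫_ℝ) →
  (∀ x ∈ C, ∀ t : ℝ, 0 ≤ t → x + t • ν ∈ C) →
  (Jr r / ρ) ^ r * ∫ x in C, |u x| ^ r ≤ ∫ x in C, ‖fderiv ℝ u x‖ ^ r

/-- a maximal inscribed disc has contact normals with the origin in their convex hull -/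
def S_contact : Prop := ∀ Ω : Set E2, Adm Ω → ∃ (c : E2) (ρ : ℝ) (s : Finset E2), 0 < ρ ∧
  ball c ρ ⊆ Ω ∧ (∀ ν ∈ s, ‖ν‖ = 1) ∧ (∀ ν ∈ s, ∀ x ∈ Ω, ⟪x - c, ν⟫_ℝ < ρ) ∧
  (0 : E2) ∈ convexHull ℝ (s : Set E2)

/-- a disc in `Ω` for which the inequality of Hersch and Protter holds -/
def HPB (Ω : Set E2) (c : E2) (ρ : ℝ) : Prop := 0 < ρ ∧ ball c ρ ⊆ Ω ∧
  ∀ r : ℝ, 1 < r → (Jr r / ρ) ^ r ≤ lam r Ω

/-- the inequality of Hersch and Protter -/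
def S_hp : Prop := ∀ Ω : Set E2, Adm Ω → ∃ (c : E2) (ρ : ℝ), HPB Ω c ρ

/-- rotation invariance -/
def S_iso : Prop := ∀ (r : ℝ) (R : E2 ≃ₗᵢ[ℝ] E2) (Ω : Set E2), lam r (R '' Ω) = lam r Ω

/-- long convex sets contain long rectangles of almost full width: upper bound for `lam` -/
def S_rect : Prop := ∀ q ε : ℝ, 1 < q → 0 < ε → ∃ A : ℝ, 1 < A ∧
  ∀ Ω : Set E2, Adm Ω → ball 0 1 ⊆ Ω → (∃ x ∈ Ω, A ≤ ‖x‖) → lam q Ω ≤ Jr q ^ q * (1 + ε)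

/-- the normalised set -/
def nrm (Ω : Set E2) (c : E2) (ρ : ℝ) : Set E2 := {x | c + ρ • x ∈ Ω}

/-- scaling and translation -/
def S_norm : Prop := ∀ (Ω : Set E2) (c : E2) (ρ : ℝ), Adm Ω → HPB Ω c ρ →
  Adm (nrm Ω c ρ) ∧ HPB (nrm Ω c ρ) 0 1 ∧
  (∀ p q : ℝ, 1 < p → 1 < q → rat p q (nrm Ω c ρ) = rat p q Ω)

/-- long sets have ratio close to the upper bound -/
def S_long : Prop := ∀ p q η : ℝ, 1 < q → q < p → 0 < η → ∃ A : ℝ, 1 < A ∧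
  ∀ Ω : Set E2, Adm Ω → HPB Ω 0 1 → (∃ x ∈ Ω, A ≤ ‖x‖) → Jr p / Jr q - η < rat p q Ω

/-- selection theorem -/
def S_compact : Prop := ∀ (A : ℝ) (Ω : ℕ → Set E2), (∀ k, Adm (Ω k)) →
  (∀ k, ball 0 1 ⊆ Ω k) → (∀ k, Ω k ⊆ ball 0 A) → ∃ (Ω₀ : Set E2) (φ : ℕ → ℕ), Adm Ω₀ ∧
  (0 : E2) ∈ Ω₀ ∧ StrictMono φ ∧ ∀ t : ℝ, 1 < t → ∀ᶠ k in atTop,
    (∀ x ∈ Ω₀, t⁻¹ • x ∈ Ω (φ k)) ∧ (∀ x ∈ Ω (φ k), t⁻¹ • x ∈ Ω₀)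

/-- continuity of the ratio -/
def S_cont : Prop := ∀ p q : ℝ, 1 < q → 1 < p → ∀ (Ω₀ : Set E2) (Ω : ℕ → Set E2), Adm Ω₀ →
  (∀ k, Adm (Ω k)) →
  (∀ t : ℝ, 1 < t → ∀ᶠ k in atTop, (∀ x ∈ Ω₀, t⁻¹ • x ∈ Ω k) ∧ (∀ x ∈ Ω k, t⁻¹ • x ∈ Ω₀)) →
  Tendsto (fun k => rat p q (Ω k)) atTop (𝓝 (rat p q Ω₀))

end Pool.Agent.R812.EV
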